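import Pool.Agent.H904.IN.Loc

/-! # The local structure of the singular set: conclusions -/

set_option autoImplicit false
set_option linter.unusedSectionVars false

open scoped Topology ContDiff
open Set Filter

noncomputable section

namespace Pool.Agent.H904.IN

variable {E : Type*} [NormedAddCommGroup E] [NormedSpace ℝ E] [FiniteDimensional ℝ E]
  {W : Type*} [NormedAddCommGroup W] [NormedSpace ℝ W] [FiniteDimensional ℝ W]

/-- injectivity is an open condition -/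
lemma inj_near' {T : Type*} [TopologicalSpace T] {E₁ E₂ : Type*} [NormedAddCommGroup E₁] [NormedSpace ℝ E₁]
    [FiniteDimensional ℝ E₁] [NormedAddCommGroup E₂] [NormedSpace ℝ E₂]
    {A : T → (E₁ →L[ℝ] E₂)} {t₀ : T} (hA : ∀ u, ContinuousAt (fun t => A t u) t₀)
    (h : ∀ u, A t₀ u = 0 → u = 0) : ∀ᶠ t in 𝓝 t₀, ∀ u, A t u = 0 → u = 0 :=
  inj_near (continuousAt_clm_apply.2 hA) h

namespace Pt

variable {ι : Type*} {F : E → W} {U : Set E} {y₀ : E} {X : ι → E → E} {r z : ι}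
  {l₀ l₁ : W →L[ℝ] ℝ} {v₀ : E} (h : Pt F U y₀ X r z l₀ l₁ v₀)

/-- the defining function of the singular set -/
def G (F : E → W) (l₀ l₁ : W →L[ℝ] ℝ) (v₀ : E) {m : ℕ} (c : Fin m → E) (y : E) : Fin m → ℝ :=
  fun k => N F l₀ l₁ v₀ y (c k)

/-- linear combinations -/
def cmb {m : ℕ} (c : Fin m → E) : (Fin m → ℝ) →ₗ[ℝ] E := Fintype.linearCombination ℝ c

lemma cmb_apply {m : ℕ} (c : Fin m → E) (s : Fin m → ℝ) : cmb c s = ∑ k, s k • c k := by
  unfold cmb
  rw [Fintype.linearCombination_apply]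

/-- the family `c` completes `X r`, `X z` to a basis of the kernel of the derivative -/
structure Compl (F : E → W) (y₀ : E) (R Z : E) {m : ℕ} (c : Fin m → E) : Prop where
  ker : ∀ k, fderiv ℝ F y₀ (c k) = 0
  indep : ∀ (s : Fin m → ℝ) (a b : ℝ), cmb c s = a • R + b • Z → s = 0
  span : ∀ u, fderiv ℝ F y₀ u = 0 → ∃ (s : Fin m → ℝ) (a b : ℝ), u = cmb c s + a • R + b • Z

lemma Compl.ker_cmb {R Z : E} {m : ℕ} {c : Fin m → E} (hc : Compl F y₀ R Z c) (s : Fin m → ℝ) :
    fderiv ℝ F y₀ (cmb c s) = 0 := by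
  rw [cmb_apply, map_sum]
  exact Finset.sum_eq_zero fun k _ => by rw [map_smul, hc.ker, smul_zero]

include h

lemma exists_Compl : ∃ (m : ℕ) (c : Fin m → E), Compl F y₀ (X r y₀) (X z y₀) c := by
  obtain ⟨C, hC1, hC2, hC3⟩ := h.exists_C
  let b := Module.finBasis ℝ C
  refine ⟨Module.finrank ℝ C, fun k => (b k : E), fun k => hC1 _ (b k).2, ?_, ?_⟩
  · intro s a a' hs
    have h1 : cmb (fun k => (b k : E)) s = ((∑ k, s k • b k : C) : E) := by
      rw [cmb_apply]
      push_cast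
      rfl
    have h2 : a • X r y₀ + a' • X z y₀ ∈ C := by
      rw [← hs, h1]
      exact (∑ k, s k • b k : C).2
    obtain ⟨h3, h4⟩ := hC2 a a' h2
    rw [h3, h4, zero_smul, zero_smul, add_zero, h1] at hs
    have h5 : (∑ k, s k • b k : C) = 0 := Subtype.ext hs
    have h6 := b.linearIndependent
    rw [Fintype.linearIndependent_iff] at h6
    funext k
    exact h6 s h5 k
  · intro u hu
    obtain ⟨c, hc, a, a', rfl⟩ := hC3 u hu
    refine ⟨fun k => b.repr ⟨c, hc⟩ k, a, a', ?_⟩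
    have h1 : cmb (fun k => (b k : E)) (fun k => b.repr ⟨c, hc⟩ k) = c := by
      rw [cmb_apply]
      have h2 := congrArg Subtype.val (b.sum_repr ⟨c, hc⟩)
      push_cast at h2
      exact h2
    rw [h1]

lemma smG {m : ℕ} (c : Fin m → E) : ContDiffOn ℝ ∞ (G F l₀ l₁ v₀ c) U := by
  rw [contDiffOn_pi]
  intro k
  exact h.smN.clm_apply contDiffOn_const

lemma dG {m : ℕ} (c : Fin m → E) {y : E} (hy : y ∈ U) (u : E) (k : Fin m) :
    fderiv ℝ (G F l₀ l₁ v₀ c) y u k = fderiv ℝ (N F l₀ l₁ v₀) y u (c k) := by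
  have h1 : ∀ k, HasFDerivAt (fun y => G F l₀ l₁ v₀ c y k)
      ((ContinuousLinearMap.apply ℝ ℝ (c k)).comp (fderiv ℝ (N F l₀ l₁ v₀) y)) y := fun k =>
    (ContinuousLinearMap.apply ℝ ℝ (c k)).hasFDerivAt.comp y (h.dN hy)
  have h2 : HasFDerivAt (G F l₀ l₁ v₀ c) (ContinuousLinearMap.pi fun k =>
      (ContinuousLinearMap.apply ℝ ℝ (c k)).comp (fderiv ℝ (N F l₀ l₁ v₀) y)) y :=
    hasFDerivAt_pi.2 h1
  rw [h2.fderiv]
  rfl

lemma dG₀ {m : ℕ} {c : Fin m → E} (hc : Compl F y₀ (X r y₀) (X z y₀) c) (u : E) (k : Fin m) :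
    fderiv ℝ (G F l₀ l₁ v₀ c) y₀ u k = l₀ (fderiv ℝ (fderiv ℝ F) y₀ u (c k)) := by
  rw [h.dG c h.mem, h.dN_apply h.mem, h.mu₀, hc.ker k, map_zero]
  ring

lemma inj_C {m : ℕ} {c : Fin m → E} (hc : Compl F y₀ (X r y₀) (X z y₀) c) {s : Fin m → ℝ}
    (h0 : fderiv ℝ (G F l₀ l₁ v₀ c) y₀ (cmb c s) = 0) : s = 0 := by
  have h1 : ∀ v, fderiv ℝ F y₀ v = 0 →
      l₀ (fderiv ℝ (fderiv ℝ F) y₀ (cmb c s) v) = 0 := by
    intro v hv
    obtain ⟨s', a, b, rfl⟩ := hc.span v hv
    have h2 : l₀ (fderiv ℝ (fderiv ℝ F) y₀ (cmb c s) (cmb c s')) = 0 := by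
      rw [cmb_apply c s', map_sum, map_sum]
      refine Finset.sum_eq_zero fun k _ => ?_
      rw [map_smul, map_smul, ← h.dG₀ hc, h0]
      simp
    simp only [map_add, map_smul, h.hess_X, smul_zero, add_zero, h2]
  obtain ⟨a, b, hab⟩ := h.nd _ (hc.ker_cmb s) h1
  exact hc.indep s a b hab

/-- **The singular set near a nondegenerate point of rank one** -/
theorem conclusion : ∃ (m : ℕ) (c : Fin m → E) (U' : Set E), IsOpen U' ∧ y₀ ∈ U' ∧ U' ⊆ U ∧
    ContDiffOn ℝ ∞ (G F l₀ l₁ v₀ c) U' ∧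
    Function.Surjective (fderiv ℝ (G F l₀ l₁ v₀ c) y₀) ∧
    Module.finrank ℝ (LinearMap.ker (fderiv ℝ (G F l₀ l₁ v₀ c) y₀).toLinearMap) = 3 ∧
    (∀ i, fderiv ℝ (G F l₀ l₁ v₀ c) y₀ (X i y₀) = 0) ∧
    (∃ Y, fderiv ℝ (G F l₀ l₁ v₀ c) y₀ Y = 0 ∧ l₁ (fderiv ℝ F y₀ Y) ≠ 0) ∧
    (∀ u, fderiv ℝ (G F l₀ l₁ v₀ c) y₀ u = 0 → fderiv ℝ F y₀ u = 0 →
      ∃ a b : ℝ, u = a • X r y₀ + b • X z y₀) ∧
    (∀ y ∈ U', G F l₀ l₁ v₀ c y = 0 → ∀ i, ∃ a b : ℝ, X i y = a • X r y + b • X z y) ∧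
    (∀ y ∈ U', (∀ u, l₁ (fderiv ℝ F y u) = 0 → fderiv ℝ F y u = 0) →
      G F l₀ l₁ v₀ c y = 0) := by
  obtain ⟨m, c, hc⟩ := h.exists_Compl
  set g := G F l₀ l₁ v₀ c with hg
  have hX0 : ∀ i, fderiv ℝ g y₀ (X i y₀) = 0 := by
    intro i
    funext k
    rw [hg, h.dG c h.mem, h.tangent h.mem h.N₀]
    rfl
  -- the derivative is an isomorphism on the span of `c`
  let T : (Fin m → ℝ) →ₗ[ℝ] (Fin m → ℝ) := (fderiv ℝ g y₀).toLinearMap ∘ₗ cmb c
  have hTinj : Function.Injective T := by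
    rw [injective_iff_map_eq_zero]
    intro s hs
    exact h.inj_C hc hs
  have hTsurj : Function.Surjective T := LinearMap.injective_iff_surjective.1 hTinj
  -- the vector `Y`
  obtain ⟨s₀, hs₀⟩ := hTsurj (fderiv ℝ g y₀ v₀)
  have hs₀' : fderiv ℝ g y₀ (cmb c s₀) = fderiv ℝ g y₀ v₀ := hs₀
  have hY1 : fderiv ℝ g y₀ (v₀ - cmb c s₀) = 0 := by rw [map_sub, hs₀', sub_self]
  have hY2 : fderiv ℝ F y₀ (v₀ - cmb c s₀) = fderiv ℝ F y₀ v₀ := by
    rw [map_sub, hc.ker_cmb, sub_zero]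
  have hkerK : ∀ u, fderiv ℝ g y₀ u = 0 → fderiv ℝ F y₀ u = 0 →
      ∃ a b : ℝ, u = a • X r y₀ + b • X z y₀ := by
    intro u hu1 hu2
    obtain ⟨s, a, b, rfl⟩ := hc.span u hu2
    have h1 : fderiv ℝ g y₀ (cmb c s) = 0 := by
      simpa only [map_add, map_smul, hX0, smul_zero, add_zero] using hu1
    rw [h.inj_C hc h1, map_zero, zero_add]
    exact ⟨a, b, rfl⟩
  -- near `y₀`
  have hcX : ∀ i, ContinuousAt (X i) y₀ := fun i =>
    ((h.smoothX i).contDiffAt (h.opn.mem_nhds h.mem)).continuousAt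
  have hA : ∀ᶠ y in 𝓝 y₀, ∀ n : E →L[ℝ] ℝ, (∀ k, n (c k) = 0) → n v₀ = 0 → n (X r y) = 0 →
      n (X z y) = 0 → n = 0 := by
    let A : E → ((E →L[ℝ] ℝ) →L[ℝ] ((Fin m → ℝ) × ℝ × ℝ × ℝ)) := fun y =>
      (ContinuousLinearMap.pi fun k => ContinuousLinearMap.apply ℝ ℝ (c k)).prod
        ((ContinuousLinearMap.apply ℝ ℝ v₀).prod
      ((ContinuousLinearMap.apply ℝ ℝ (X r y)).prod (ContinuousLinearMap.apply ℝ ℝ (X z y))))
    have hA' : ∀ᶠ y in 𝓝 y₀, ∀ n, A y n = 0 → n = 0 := by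
      refine inj_near' (E₁ := E →L[ℝ] ℝ) (E₂ := (Fin m → ℝ) × ℝ × ℝ × ℝ) (A := A) ?_ ?_
      · intro n
        show ContinuousAt (fun y => ((fun k => n (c k)), n v₀, n (X r y), n (X z y))) y₀
        exact continuousAt_const.prodMk (continuousAt_const.prodMk
          ((n.continuous.continuousAt.comp (hcX r)).prodMk
            (n.continuous.continuousAt.comp (hcX z))))
      · intro n hn
        have h1 : ((fun k => n (c k)), n v₀, n (X r y₀), n (X z y₀)) =
          (0 : (Fin m → ℝ) × ℝ × ℝ × ℝ) := hn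
        simp only [Prod.mk_eq_zero] at h1
        obtain ⟨h2, h3, h4, h5⟩ := h1
        refine ContinuousLinearMap.ext fun u => ?_
        set t := l₁ (fderiv ℝ F y₀ u) / l₁ (fderiv ℝ F y₀ v₀) with ht
        have h6 : fderiv ℝ F y₀ (u - t • v₀) = 0 := by
          apply h.rank
          rw [map_sub, map_smul, map_sub, map_smul, ht, smul_eq_mul,
            div_mul_cancel₀ _ (h.ne y₀ h.mem), sub_self]
        obtain ⟨s, a, b, hsab⟩ := hc.span _ h6
        have h7 : u = cmb c s + a • X r y₀ + b • X z y₀ + t • v₀ := by rw [← hsab]; abel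
        have h8 : n (cmb c s) = 0 := by
          rw [cmb_apply, map_sum]
          refine Finset.sum_eq_zero fun k _ => ?_
          rw [map_smul, show n (c k) = 0 from congrFun h2 k, smul_zero]
        rw [h7]
        simp [h3, h4, h5, h8]
    filter_upwards [hA'] with y hy n h1 h2 h3 h4
    apply hy
    show ((fun k => n (c k)), n v₀, n (X r y), n (X z y)) = (0 : (Fin m → ℝ) × ℝ × ℝ × ℝ)
    rw [h2, h3, h4, show (fun k => n (c k)) = 0 from funext h1]
    rfl
  have hB : ∀ᶠ y in 𝓝 y₀, ∀ (s : Fin m → ℝ) (t : ℝ), fderiv ℝ g y (cmb c s + t • v₀) = 0 →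
      l₁ (fderiv ℝ F y (cmb c s + t • v₀)) = 0 → s = 0 ∧ t = 0 := by
    let e : (Fin m → ℝ) × ℝ →L[ℝ] E := LinearMap.toContinuousLinearMap
      ((cmb c).coprod ((LinearMap.toSpanSingleton ℝ E v₀)))
    have he : ∀ p, e p = cmb c p.1 + p.2 • v₀ := fun p => rfl
    let B : E → (((Fin m → ℝ) × ℝ) →L[ℝ] ((Fin m → ℝ) × ℝ)) := fun y =>
      ((fderiv ℝ g y).comp e).prod ((l₁.comp (fderiv ℝ F y)).comp e)
    have hB' : ∀ᶠ y in 𝓝 y₀, ∀ p, B y p = 0 → p = 0 := by
      refine inj_near' (E₁ := (Fin m → ℝ) × ℝ) (E₂ := (Fin m → ℝ) × ℝ) (A := B) ?_ ?_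
      · intro p
        show ContinuousAt (fun y => (fderiv ℝ g y (e p), l₁ (fderiv ℝ F y (e p)))) y₀
        have h1 : ContinuousAt (fderiv ℝ g) y₀ :=
          ((((h.smG c).contDiffAt (h.opn.mem_nhds h.mem)).fderiv_right (m := 0)
            (by simp))).continuousAt
        have h2 : ContinuousAt (fderiv ℝ F) y₀ :=
          (h.smD.contDiffAt (h.opn.mem_nhds h.mem)).continuousAt
        exact (h1.clm_apply continuousAt_const).prodMk
          (l₁.continuous.continuousAt.comp (h2.clm_apply continuousAt_const))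
      · rintro ⟨s, t⟩ hp
        have h1 : (fderiv ℝ g y₀ (cmb c s + t • v₀), l₁ (fderiv ℝ F y₀ (cmb c s + t • v₀))) =
          (0 : (Fin m → ℝ) × ℝ) := hp
        simp only [Prod.mk_eq_zero] at h1
        obtain ⟨h2, h3⟩ := h1
        have h4 : t = 0 := by
          rw [map_add, map_add, hc.ker_cmb, map_zero, zero_add, map_smul, map_smul,
            smul_eq_mul] at h3
          exact (mul_eq_zero.1 h3).resolve_right (h.ne y₀ h.mem)
        rw [h4, zero_smul, add_zero] at h2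
        have h5 : s = 0 := h.inj_C hc h2
        rw [h4, h5]
        rfl
    filter_upwards [hB'] with y hy s t h1 h2
    have h3 := hy (s, t) (by
      show (fderiv ℝ g y (cmb c s + t • v₀), l₁ (fderiv ℝ F y (cmb c s + t • v₀))) =
          (0 : (Fin m → ℝ) × ℝ)
      rw [h1, h2]
      rfl)
    exact ⟨congrArg Prod.fst h3, congrArg Prod.snd h3⟩
  obtain ⟨V, hV1, hV2, hV3⟩ := eventually_nhds_iff.1 (hA.and (hB.and (h.opn.mem_nhds h.mem)))
  have hVU : V ⊆ U := fun y hy => (hV1 y hy).2.2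
  refine ⟨m, c, V, hV2, hV3, hVU, (h.smG c).mono hVU, ?_, ?_, hX0, ⟨v₀ - cmb c s₀, hY1, ?_⟩,
    hkerK, ?_, ?_⟩
  · intro n
    obtain ⟨s, hs⟩ := hTsurj n
    exact ⟨cmb c s, hs⟩
  · -- the dimension of the kernel
    let b : Fin 3 → E := ![X r y₀, X z y₀, v₀ - cmb c s₀]
    have hb0 : b 0 = X r y₀ := rfl
    have hb1 : b 1 = X z y₀ := rfl
    have hb2 : b 2 = v₀ - cmb c s₀ := rfl
    have hli : LinearIndependent ℝ b := by
      rw [Fintype.linearIndependent_iff]
      intro k hk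
      rw [Fin.sum_univ_three, hb0, hb1, hb2] at hk
      have h1 : k 2 = 0 := by
        have h2 := congrArg (fun u => l₁ (fderiv ℝ F y₀ u)) hk
        simp only [map_add, map_smul, h.ker r y₀ h.mem, h.ker z y₀ h.mem, smul_zero, zero_add,
          hY2, map_zero, smul_eq_mul] at h2
        exact (mul_eq_zero.1 h2).resolve_right (h.ne y₀ h.mem)
      rw [h1, zero_smul, add_zero] at hk
      obtain ⟨h2, h3⟩ := h.indep _ _ hk
      intro i
      fin_cases i
      · exact h2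
      · exact h3
      · exact h1
    have hspan : LinearMap.ker (fderiv ℝ g y₀).toLinearMap = Submodule.span ℝ (range b) := by
      apply le_antisymm
      · intro u hu
        have hu' : fderiv ℝ g y₀ u = 0 := hu
        set t := l₁ (fderiv ℝ F y₀ u) / l₁ (fderiv ℝ F y₀ v₀) with ht
        have h1 : fderiv ℝ F y₀ (u - t • (v₀ - cmb c s₀)) = 0 := by
          apply h.rank
          rw [map_sub, map_smul, hY2, map_sub, map_smul, ht, smul_eq_mul,
            div_mul_cancel₀ _ (h.ne y₀ h.mem), sub_self]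
        have h2 : fderiv ℝ g y₀ (u - t • (v₀ - cmb c s₀)) = 0 := by
          rw [map_sub, map_smul, hY1, hu', smul_zero, sub_zero]
        obtain ⟨a, b', hab⟩ := hkerK _ h2 h1
        have h3 : u = a • X r y₀ + b' • X z y₀ + t • (v₀ - cmb c s₀) := by rw [← hab]; abel
        rw [h3]
        refine Submodule.add_mem _ (Submodule.add_mem _ ?_ ?_) ?_
        · exact Submodule.smul_mem _ _ (Submodule.subset_span ⟨0, rfl⟩)
        · exact Submodule.smul_mem _ _ (Submodule.subset_span ⟨1, rfl⟩)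
        · exact Submodule.smul_mem _ _ (Submodule.subset_span ⟨2, rfl⟩)
      · rw [Submodule.span_le]
        rintro _ ⟨i, rfl⟩
        fin_cases i
        · exact hX0 r
        · exact hX0 z
        · exact hY1
    rw [hspan, finrank_span_eq_card hli]
    rfl
  · rw [hY2]
    exact h.ne y₀ h.mem
  · intro y hy hGy i
    obtain ⟨hAy, hBy, hyU⟩ := hV1 y hy
    -- `N` vanishes
    have hN : N F l₀ l₁ v₀ y = 0 :=
      hAy _ (fun k => congrFun hGy k) (h.N_v₀ hyU) (h.N_X hyU _) (h.N_X hyU _)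
    have hGX : ∀ i, fderiv ℝ g y (X i y) = 0 := by
      intro i
      funext k
      rw [hg, h.dG c hyU, h.tangent hyU hN]
      rfl
    -- the decomposition
    set S : Submodule ℝ E := LinearMap.range (cmb c) ⊔ Submodule.span ℝ {v₀, X r y, X z y}
      with hS
    have htop : S = ⊤ := by
      by_contra hne
      obtain ⟨n, hn1, hn2⟩ := Submodule.exists_le_ker_of_lt_top _ (lt_top_iff_ne_top.2 hne)
      apply hn1
      have h1 : ∀ u ∈ S, n u = 0 := fun u hu => hn2 hu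
      have h2 : LinearMap.toContinuousLinearMap n = 0 := by
        apply hAy
        · intro k
          refine h1 (c k) (Submodule.mem_sup_left ⟨Pi.single k 1, ?_⟩)
          unfold cmb
          rw [Fintype.linearCombination_apply_single, one_smul]
        · exact h1 v₀ (Submodule.mem_sup_right (Submodule.subset_span (by simp)))
        · exact h1 (X r y) (Submodule.mem_sup_right (Submodule.subset_span (by simp)))
        · exact h1 (X z y) (Submodule.mem_sup_right (Submodule.subset_span (by simp)))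
      refine LinearMap.ext fun u => ?_
      exact DFunLike.congr_fun h2 u
    have hmem : X i y ∈ S := by rw [htop]; trivial
    obtain ⟨_, ⟨s, rfl⟩, w, hw, hcs⟩ := Submodule.mem_sup.1 hmem
    obtain ⟨t, a, b, hs'⟩ := Submodule.mem_span_triple.1 hw
    have h1 : X i y = (cmb c s + t • v₀) + a • X r y + b • X z y := by
      rw [← hcs, ← hs']; abel
    have h2 : fderiv ℝ g y (cmb c s + t • v₀) = 0 := by
      have h3 := hGX i
      rw [h1] at h3
      rw [map_add, map_add, map_smul _ a, map_smul _ b, hGX, hGX, smul_zero, smul_zero, add_zero,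
        add_zero] at h3
      exact h3
    have h3 : l₁ (fderiv ℝ F y (cmb c s + t • v₀)) = 0 := by
      have h4 := h.ker i y hyU
      rw [h1, map_add, map_add, map_smul _ a, map_smul _ b, h.ker r y hyU, h.ker z y hyU,
        smul_zero, smul_zero, add_zero, add_zero] at h4
      rw [h4, map_zero]
    obtain ⟨h5, h6⟩ := hBy s t h2 h3
    refine ⟨a, b, ?_⟩
    rw [h1, h5, h6, map_zero, zero_smul, add_zero, zero_add]
  · intro y hy hr
    have hyU := hVU hy
    funext k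
    show N F l₀ l₁ v₀ y (c k) = 0
    set t := l₁ (fderiv ℝ F y (c k)) / l₁ (fderiv ℝ F y v₀) with ht
    have h1 : fderiv ℝ F y (c k - t • v₀) = 0 := by
      apply hr
      rw [map_sub, map_smul, map_sub, map_smul, ht, smul_eq_mul,
        div_mul_cancel₀ _ (h.ne y hyU), sub_self]
    have h2 : N F l₀ l₁ v₀ y (c k - t • v₀) = 0 := by
      rw [N_apply, h1, map_zero, map_zero, mul_zero, sub_zero]
    rw [map_sub, map_smul, h.N_v₀ hyU, smul_zero, sub_zero] at h2
    exact h2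

end Pt

end Pool.Agent.H904.IN
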