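import Pool.Agent.H904.IN.Com
import Pool.Agent.H904.IN.Loc2

/-! # Commuting first integrals in a chart -/

set_option autoImplicit false
set_option linter.unusedSectionVars false

open scoped Topology ContDiff Manifold
open Set Filter Bundle Pool.Agent.Helper186 Pool.Agent.H826R2

noncomputable section

namespace Pool.Agent.H904.IN

open Pool.Agent.N287.WF (DW)

universe u v w

section

variable {E : Type u} [NormedAddCommGroup E] [NormedSpace ℝ E] [FiniteDimensional ℝ E]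
  {M : Type v} [TopologicalSpace M] [ChartedSpace E M] [IsManifold 𝓘(ℝ, E) ∞ M]

/-- the derivative of a map to the model space -/
def DK (k : M → E) (x : M) : E →L[ℝ] E := mfderiv 𝓘(ℝ, E) 𝓘(ℝ, E) k x

/-- a global map which is the chart at `x₀` near `x₀` -/
structure Hat (x₀ : M) (k : M → E) (V : Set M) : Prop where
  smooth : ContMDiff 𝓘(ℝ, E) 𝓘(ℝ, E) ∞ k
  opn : IsOpen V
  mem : x₀ ∈ V
  sub : V ⊆ (chartAt E x₀).source
  eq : ∀ x ∈ V, k x = chartAt E x₀ x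

lemma exists_hat [T2Space M] (x₀ : M) : ∃ (k : M → E) (V : Set M), Hat x₀ k V := by
  let ρ : SmoothBumpFunction 𝓘(ℝ, E) x₀ := Classical.choice inferInstance
  obtain ⟨V, hV1, hV2, hV3⟩ := eventually_nhds_iff.1
    (ρ.eventuallyEq_one.and ((chartAt E x₀).open_source.mem_nhds (mem_chart_source E x₀)))
  refine ⟨fun x => ρ x • chartAt E x₀ x, V, ?_, hV2, hV3, fun x hx => (hV1 x hx).2, ?_⟩
  · exact ρ.contMDiff_smul (contMDiffOn_chart (I := 𝓘(ℝ, E)) (n := ∞) (x := x₀))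
  · intro x hx
    have h1 := (hV1 x hx).1
    show ρ x • chartAt E x₀ x = chartAt E x₀ x
    rw [h1]
    simp

namespace Hat

variable {x₀ : M} {k : M → E} {V : Set M} (h : Hat x₀ k V)

include h

lemma DK_eq {x : M} (hx : x ∈ V) : DK k x = mfderiv 𝓘(ℝ, E) 𝓘(ℝ, E) (chartAt E x₀) x := by
  unfold DK
  apply Filter.EventuallyEq.mfderiv_eq
  filter_upwards [h.opn.mem_nhds hx] with y hy
  exact h.eq y hy

lemma bij {x : M} (hx : x ∈ V) : Function.Bijective (DK k x) := by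
  rw [h.DK_eq hx]
  exact (mdifferentiable_chart (I := 𝓘(ℝ, E)) x₀).mfderiv_bijective (h.sub hx)

lemma at₀ : DK k x₀ = ContinuousLinearMap.id ℝ E := by
  have h0 : MDifferentiableAt 𝓘(ℝ, E) 𝓘(ℝ, E) k x₀ := (h.smooth x₀).mdifferentiableAt (by simp)
  unfold DK
  rw [h0.mfderiv]
  have h2 : writtenInExtChartAt 𝓘(ℝ, E) 𝓘(ℝ, E) x₀ k =ᶠ[𝓝 (chartAt E x₀ x₀)] id := by
    have h3 : (chartAt E x₀).symm ⁻¹' V ∈ 𝓝 (chartAt E x₀ x₀) := by
      apply ((chartAt E x₀).symm.continuousAt (by simp)).preimage_mem_nhds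
      rw [(chartAt E x₀).left_inv (mem_chart_source E x₀)]
      exact h.opn.mem_nhds h.mem
    filter_upwards [h3, (chartAt E x₀).open_target.mem_nhds
      ((chartAt E x₀).map_source (mem_chart_source E x₀))] with y hy hy2
    simp only [writtenInExtChartAt, mfld_simps]
    rw [h.eq _ hy, (chartAt E x₀).right_inv hy2]
  have h3 : extChartAt 𝓘(ℝ, E) x₀ x₀ = chartAt E x₀ x₀ := by simp [mfld_simps]
  rw [h3]
  simp only [mfld_simps]
  rw [fderivWithin_univ]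
  exact h2.fderiv_eq.trans fderiv_id

/-- a smooth field, read in the chart -/
lemma smooth_push {X : (x : M) → TangentSpace 𝓘(ℝ, E) x}
    (hX : ContMDiff 𝓘(ℝ, E) 𝓘(ℝ, E).tangent ∞ (fun x => (⟨x, X x⟩ : TangentBundle 𝓘(ℝ, E) M))) :
    ContDiffOn ℝ ∞ (fun y => DK k ((chartAt E x₀).symm y) (X ((chartAt E x₀).symm y)))
      (chartAt E x₀).target := by
  have h1 : ContMDiff 𝓘(ℝ, E).tangent 𝓘(ℝ, E).tangent ∞
      (tangentMap 𝓘(ℝ, E) 𝓘(ℝ, E) k) := h.smooth.contMDiff_tangentMap (by simp)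
  have h2 := h1.comp hX
  have h3 := contMDiff_snd_tangentBundle_modelSpace E 𝓘(ℝ, E) (n := ∞)
  have h4 : ContMDiff 𝓘(ℝ, E) 𝓘(ℝ, E) ∞ (fun x => DK k x (X x)) := h3.comp h2
  have h5 : ContMDiffOn 𝓘(ℝ, E) 𝓘(ℝ, E) ∞ (chartAt E x₀).symm (chartAt E x₀).target :=
    contMDiffOn_chart_symm (I := 𝓘(ℝ, E)) (n := ∞) (x := x₀)
  exact contMDiffOn_iff_contDiffOn.1 (h4.comp_contMDiffOn h5)

end Hat

end

section

variable {E : Type u} [NormedAddCommGroup E] [NormedSpace ℝ E] [FiniteDimensional ℝ E]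
  {M : Type v} [TopologicalSpace M] [ChartedSpace E M] [IsManifold 𝓘(ℝ, E) ∞ M]
  {W : Type w} [NormedAddCommGroup W] [InnerProductSpace ℝ W] [FiniteDimensional ℝ W]

/-- the function in the chart -/
def FF (f : M → W) (x₀ : M) (y : E) : W := f ((chartAt E x₀).symm y)

lemma smooth_FF {f : M → W} (hf : ContMDiff 𝓘(ℝ, E) 𝓘(ℝ, W) ∞ f) (x₀ : M) :
    ContDiffOn ℝ ∞ (FF (E := E) f x₀) (chartAt E x₀).target := by
  have h5 : ContMDiffOn 𝓘(ℝ, E) 𝓘(ℝ, E) ∞ (chartAt E x₀).symm (chartAt E x₀).target :=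
    contMDiffOn_chart_symm (I := 𝓘(ℝ, E)) (n := ∞) (x := x₀)
  exact contMDiffOn_iff_contDiffOn.1 (hf.comp_contMDiffOn h5)

lemma Hat.DW_eq {x₀ : M} {k : M → E} {V : Set M} (h : Hat x₀ k V) {f : M → W}
    (hf : ContMDiff 𝓘(ℝ, E) 𝓘(ℝ, W) ∞ f) {x : M} (hx : x ∈ V) (v : TangentSpace 𝓘(ℝ, E) x) :
    DW f x v = fderiv ℝ (FF (E := E) f x₀) (chartAt E x₀ x) (DK k x v) := by
  have h1 : HasFDerivAt (FF (E := E) f x₀) (fderiv ℝ (FF (E := E) f x₀) (k x)) (k x) := by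
    have h2 : k x ∈ (chartAt E x₀).target := by
      rw [h.eq x hx]
      exact (chartAt E x₀).map_source (h.sub hx)
    exact (((smooth_FF hf x₀).contDiffAt ((chartAt E x₀).open_target.mem_nhds h2)).differentiableAt
      (by simp)).hasFDerivAt
  have h2 := HasMFDerivAt.comp x (g := FF (E := E) f x₀) (f := k) h1.hasMFDerivAt
    ((h.smooth x).mdifferentiableAt (by simp)).hasMFDerivAt
  have h3 : f =ᶠ[𝓝 x] (FF (E := E) f x₀) ∘ k := by
    filter_upwards [h.opn.mem_nhds hx] with y hy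
    show f y = f ((chartAt E x₀).symm (k y))
    rw [h.eq y hy, (chartAt E x₀).left_inv (h.sub hy)]
  have h4 := (h2.congr_of_eventuallyEq h3).mfderiv
  rw [← h.eq x hx]
  exact DFunLike.congr_fun h4 v

end

end Pool.Agent.H904.IN
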