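import Mathlib
import Pool.Graph.R_pool_sql_team_seeded_63374d34.N287.WF.Stm
import Pool.Graph.R_pool_sql_team_seeded_63374d34.N284.WF.M1a

/-! # Commuting first integrals: the Hamiltonian fields -/

set_option autoImplicit false
set_option linter.unusedSectionVars false

open scoped Topology ContDiff Manifold
open Set Filter Bundle Pool.Agent.Helper186 Pool.Agent.H826R2

noncomputable section

namespace Pool.Agent.H904.IN

open Pool.Agent.N287.WF (DW)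

universe u v w

variable {E : Type u} [NormedAddCommGroup E] [NormedSpace ℝ E] [FiniteDimensional ℝ E]
  {M : Type v} [TopologicalSpace M] [ChartedSpace E M] [IsManifold 𝓘(ℝ, E) ∞ M]
  {W : Type w} [NormedAddCommGroup W] [InnerProductSpace ℝ W] [FiniteDimensional ℝ W]

/-- commuting first integrals -/
structure Com (β : (x : M) → TangentSpace 𝓘(ℝ, E) x →L[ℝ] ℝ)
    (R : (x : M) → TangentSpace 𝓘(ℝ, E) x) (f : M → W) : Prop where
  cd : Wein.CD β R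
  smooth : ContMDiff 𝓘(ℝ, E) 𝓘(ℝ, W) ∞ f
  first : ∀ x, DW f x (R x) = 0
  inv : ∀ (x : M) (u : TangentSpace 𝓘(ℝ, E) x) (ℓ : W →L[ℝ] ℝ),
    (∀ v, extDer 𝓘(ℝ, E) β x u v = ℓ (DW f x v)) → DW f x u = 0

variable {β : (x : M) → TangentSpace 𝓘(ℝ, E) x →L[ℝ] ℝ}
  {R : (x : M) → TangentSpace 𝓘(ℝ, E) x} {f : M → W}

/-- the index set of the fields -/
abbrev Idx (W : Type w) [NormedAddCommGroup W] [InnerProductSpace ℝ W] := (W →L[ℝ] ℝ) × ℝ

/-- the function with the index `i` -/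
def fn (f : M → W) (i : Idx W) (x : M) : ℝ := i.1 (f x) + i.2

namespace Com

variable (h : Com β R f)

include h

lemma smooth_fn (i : Idx W) : ContMDiff 𝓘(ℝ, E) 𝓘(ℝ, ℝ) ∞ (fn f i) := by
  have h1 : ContMDiff 𝓘(ℝ, W) 𝓘(ℝ, ℝ) ∞ (fun w : W => i.1 w + i.2) :=
    (i.1.contDiff.add contDiff_const).contMDiff
  exact h1.comp h.smooth

lemma dForm_fn (i : Idx W) (x : M) (v : TangentSpace 𝓘(ℝ, E) x) :
    dForm 𝓘(ℝ, E) (fn f i) x v = i.1 (DW f x v) := by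
  have h1 : HasFDerivAt (fun w : W => i.1 w + i.2) i.1 (f x) :=
    i.1.hasFDerivAt.add_const _
  have h2 := HasMFDerivAt.comp x (g := fun w : W => i.1 w + i.2) (f := f) h1.hasMFDerivAt
    ((h.smooth x).mdifferentiableAt (by simp)).hasMFDerivAt
  have h3 : mfderiv 𝓘(ℝ, E) 𝓘(ℝ, ℝ) ((fun w : W => i.1 w + i.2) ∘ f) x = _ := h2.mfderiv
  exact DFunLike.congr_fun h3 v

/-- the contact Hamiltonian fields -/
def H (i : Idx W) (x : M) : TangentSpace 𝓘(ℝ, E) x := h.cd.X (fn f i) x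

lemma smooth_H (i : Idx W) : ContMDiff 𝓘(ℝ, E) 𝓘(ℝ, E).tangent ∞
    (fun x => (⟨x, h.H i x⟩ : TangentBundle 𝓘(ℝ, E) M)) := h.cd.smooth_X (h.smooth_fn i)

lemma fn_R (i : Idx W) (x : M) : dForm 𝓘(ℝ, E) (fn f i) x (R x) = 0 := by
  rw [h.dForm_fn, h.first, map_zero]

lemma d_H (i : Idx W) (x : M) (v : TangentSpace 𝓘(ℝ, E) x) :
    extDer 𝓘(ℝ, E) β x (h.H i x) v = - i.1 (DW f x v) := by
  rw [← h.dForm_fn]
  exact h.cd.dβ_X (h.fn_R i x) v

lemma ker_H (i : Idx W) (x : M) : DW f x (h.H i x) = 0 :=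
  h.inv x _ (-i.1) fun v => by rw [h.d_H]; rfl

lemma H_reeb (x : M) : h.H (0, 1) x = R x := by
  symm
  apply h.cd.X_unique
  intro v
  rw [h.dForm_fn, Wein.HB_apply, h.cd.reeb.unit, h.cd.reeb.kernel]
  simp [fn]

lemma smooth_R : ContMDiff 𝓘(ℝ, E) 𝓘(ℝ, E).tangent ∞
    (fun x => (⟨x, R x⟩ : TangentBundle 𝓘(ℝ, E) M)) :=
  Pool.Agent.N284.WF.smooth_R h.cd

end Com

end Pool.Agent.H904.IN
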