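import Mathlib

/-! # The product of a manifold with a vector space as a manifold modelled on the product -/

set_option autoImplicit false
set_option linter.unusedSectionVars false

open scoped Topology ContDiff Manifold
open Set Filter

noncomputable section

namespace Pool.Agent.H904.IN

variable {E : Type*} [NormedAddCommGroup E] [NormedSpace ℝ E]
  {M : Type*} [TopologicalSpace M] [ChartedSpace E M]
  {W : Type*} [NormedAddCommGroup W] [NormedSpace ℝ W]

/-- the product structure -/
@[reducible] def csProd (E M W : Type*) [NormedAddCommGroup E] [NormedSpace ℝ E]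
    [TopologicalSpace M] [ChartedSpace E M] [NormedAddCommGroup W] [NormedSpace ℝ W] :
    ChartedSpace (E × W) (M × W) := prodChartedSpace E M W W

attribute [local instance] csProd

lemma csProd_chartAt (p : M × W) (x : M) (a : W) :
    chartAt (E × W) p (x, a) = (chartAt E p.1 x, a) := rfl

instance isManifold_prod [IsManifold 𝓘(ℝ, E) ∞ M] : IsManifold 𝓘(ℝ, E × W) ∞ (M × W) := by
  rw [modelWithCornersSelf_prod]
  exact IsManifold.prod M W

lemma contMDiff_fst' : ContMDiff 𝓘(ℝ, E × W) 𝓘(ℝ, E) ∞ (Prod.fst : M × W → M) := by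
  rw [modelWithCornersSelf_prod]
  exact contMDiff_fst

lemma contMDiff_snd' : ContMDiff 𝓘(ℝ, E × W) 𝓘(ℝ, W) ∞ (Prod.snd : M × W → W) := by
  rw [modelWithCornersSelf_prod]
  exact contMDiff_snd

lemma hasMFDerivAt_fst' (p : M × W) : HasMFDerivAt 𝓘(ℝ, E × W) 𝓘(ℝ, E) (Prod.fst : M × W → M) p
    (ContinuousLinearMap.fst ℝ E W) := by
  rw [modelWithCornersSelf_prod]
  exact hasMFDerivAt_fst (x := p)

end Pool.Agent.H904.IN
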