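import Mathlib
import Pool.Graph.R_seed8.TH607.Fx.Sub

/-! # Slice charts of zero sets -/

set_option autoImplicit false
set_option linter.unusedSectionVars false

open scoped Topology ContDiff Manifold
open Set Filter Pool.Agent.TH607

noncomputable section

namespace Pool.Agent.H904.IN

universe u v

variable {E : Type u} [NormedAddCommGroup E] [NormedSpace ℝ E] [FiniteDimensional ℝ E]
  {F : Type*} [NormedAddCommGroup F] [NormedSpace ℝ F] [FiniteDimensional ℝ F]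

/-- straightening of a submersion: a local diffeomorphism `Ψ` with `Ψ y` in the kernel of the derivative
if and only if `g y = 0` -/
lemma straighten {g : E → F} {U : Set E} (hU : IsOpen U) (hg : ContDiffOn ℝ ∞ g U) {y₀ : E}
    (hy : y₀ ∈ U) (hs : Function.Surjective (fderiv ℝ g y₀)) :
    ∃ (Ψ : OpenPartialHomeomorph E E) (π : E →L[ℝ] E), y₀ ∈ Ψ.source ∧ Ψ.source ⊆ U ∧
      ContDiffOn ℝ ∞ Ψ Ψ.source ∧ ContDiffOn ℝ ∞ Ψ.symm Ψ.target ∧
      (∀ v, fderiv ℝ g y₀ (π v) = 0) ∧ (∀ v, fderiv ℝ g y₀ v = 0 → π v = v) ∧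
      ∀ y ∈ Ψ.source, g y = 0 ↔ π (Ψ y) = Ψ y := by
  set A : E →L[ℝ] F := fderiv ℝ g y₀ with hA
  obtain ⟨B₀, hB₀⟩ := (A : E →ₗ[ℝ] F).exists_rightInverse_of_surjective
    (LinearMap.range_eq_top.2 hs)
  let B : F →L[ℝ] E := LinearMap.toContinuousLinearMap B₀
  have hAB : ∀ w, A (B w) = w := fun w => DFunLike.congr_fun hB₀ w
  let π : E →L[ℝ] E := ContinuousLinearMap.id ℝ E - B.comp A
  have hπ : ∀ v, π v = v - B (A v) := fun v => rfl
  let Φ : E → E := fun y => π y + B (g y)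
  have hΦ : ContDiffOn ℝ ∞ Φ U :=
    (π.contDiff.contDiffOn).add (B.contDiff.comp_contDiffOn hg)
  have hΦat : ∀ y ∈ U, ContDiffAt ℝ ∞ Φ y := fun y hy => hΦ.contDiffAt (hU.mem_nhds hy)
  have hd : HasFDerivAt Φ ((ContinuousLinearEquiv.refl ℝ E : E ≃L[ℝ] E) : E →L[ℝ] E) y₀ := by
    have h1 : HasFDerivAt g A y₀ :=
      ((hg.contDiffAt (hU.mem_nhds hy)).differentiableAt (by simp)).hasFDerivAt
    have h2 := (π.hasFDerivAt (x := y₀)).add (B.hasFDerivAt.comp y₀ h1)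
    have h3 : π + B.comp A = ((ContinuousLinearEquiv.refl ℝ E : E ≃L[ℝ] E) : E →L[ℝ] E) := by
      ext v
      simp [π]
    rw [← h3]
    exact h2
  let Ψ₀ : OpenPartialHomeomorph E E := (hΦat y₀ hy).toOpenPartialHomeomorph Φ hd (by simp)
  have hΨ₀ : ∀ y, Ψ₀ y = Φ y := fun y => rfl
  have hmem : y₀ ∈ Ψ₀.source := (hΦat y₀ hy).mem_toOpenPartialHomeomorph_source hd (by simp)
  -- the open set of good points
  have hcont : ContinuousAt (fun y => fderiv ℝ Φ y) y₀ :=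
    ((hΦat y₀ hy).fderiv_right (m := 0) (by simp)).continuousAt
  have hinv : ∀ᶠ y in 𝓝 y₀, ∃ e : E ≃L[ℝ] E, (e : E →L[ℝ] E) = fderiv ℝ Φ y := by
    have h1 := ContinuousLinearEquiv.nhds (ContinuousLinearEquiv.refl ℝ E)
    rw [← hd.fderiv] at h1
    exact hcont.eventually h1
  obtain ⟨V, hV1, hV2, hV3⟩ := eventually_nhds_iff.1
    (hinv.and ((hU.mem_nhds hy)))
  let Ψ := Ψ₀.restrOpen V hV2
  have hsrc : Ψ.source = Ψ₀.source ∩ V := rfl
  refine ⟨Ψ, π, ⟨hmem, hV3⟩, fun y hy => (hV1 y hy.2).2, ?_, ?_, ?_, ?_, ?_⟩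
  · intro y hy
    exact (hΦat y (hV1 y hy.2).2).contDiffWithinAt
  · intro z hz
    have hz' : Ψ.symm z ∈ Ψ.source := Ψ.map_target hz
    obtain ⟨⟨e, he⟩, hzU⟩ := hV1 _ hz'.2
    refine (Ψ.contDiffAt_symm (f₀' := e) hz ?_ ?_).contDiffWithinAt
    · rw [he]
      exact ((hΦat _ hzU).differentiableAt (by simp)).hasFDerivAt
    · exact hΦat _ hzU
  · intro v
    show A (π v) = 0
    rw [hπ, map_sub, hAB, sub_self]
  · intro v hv
    have hv' : A v = 0 := hv
    rw [hπ, hv', map_zero, sub_zero]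
  · intro y _
    show g y = 0 ↔ π (π y + B (g y)) = π y + B (g y)
    have h1 : π (B (g y)) = 0 := by rw [hπ, hAB, sub_self]
    have h2 : π (π y) = π y := by
      have h3 : A (π y) = 0 := by rw [hπ, map_sub, hAB, sub_self]
      rw [hπ (π y), h3, map_zero, sub_zero]
    rw [map_add, h1, h2, add_zero]
    constructor
    · intro h
      rw [h, map_zero, add_zero]
    · intro h
      have h3 : B (g y) = 0 := by
        have := h.symm
        rwa [add_eq_left] at this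
      rw [← hAB (g y), h3, map_zero]

variable {X : Type v} [TopologicalSpace X] [ChartedSpace E X] [IsManifold 𝓘(ℝ, E) ∞ X]
  {E' : Type*} [NormedAddCommGroup E'] [NormedSpace ℝ E'] [FiniteDimensional ℝ E']

/-- slice charts of zero sets of submersions -/
theorem exists_sliceAt {A : Set X} {a : X} {g : E → F} {U : Set E} (hU : IsOpen U)
    (hg : ContDiffOn ℝ ∞ g U) (hy : chartAt E a a ∈ U)
    (hs : Function.Surjective (fderiv ℝ g (chartAt E a a)))
    (hdim : Module.finrank ℝ E' = Module.finrank ℝ (LinearMap.ker (fderiv ℝ g (chartAt E a a)).toLinearMap))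
    (hA : ∀ᶠ x in 𝓝 a, x ∈ A ↔ g (chartAt E a x) = 0) :
    Nonempty (SliceAt (E := E) E' A a) := by
  obtain ⟨Ψ, π, h1, h2, h3, h4, h5, h6, h7⟩ := straighten hU hg hy hs
  obtain ⟨V, hV1, hV2, hV3⟩ := eventually_nhds_iff.1 hA
  let φ₀ : OpenPartialHomeomorph X E := (chartAt E a).trans Ψ
  let φ : OpenPartialHomeomorph X E := φ₀.restrOpen V hV2
  have hsub : ∀ x ∈ φ.source, x ∈ (chartAt E a).source ∧ chartAt E a x ∈ Ψ.source ∧ x ∈ V := by
    intro x hx
    have hx1 : x ∈ φ₀.source ∩ V := hx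
    have hx2 : x ∈ (chartAt E a).source ∩ (chartAt E a) ⁻¹' Ψ.source := by
      have h8 : φ₀.source = (chartAt E a).source ∩ (chartAt E a) ⁻¹' Ψ.source :=
        OpenPartialHomeomorph.trans_source _ _
      rw [← h8]
      exact hx1.1
    exact ⟨hx2.1, hx2.2, hx1.2⟩
  let K := LinearMap.ker (fderiv ℝ g (chartAt E a a)).toLinearMap
  let e : E' ≃ₗ[ℝ] K := LinearEquiv.ofFinrankEq _ _ hdim
  let π' : E →ₗ[ℝ] K := LinearMap.codRestrict K (π : E →ₗ[ℝ] E) (fun v => h5 v)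
  let j : E' →L[ℝ] E := LinearMap.toContinuousLinearMap (K.subtype ∘ₗ (e : E' →ₗ[ℝ] K))
  let p : E →L[ℝ] E' := LinearMap.toContinuousLinearMap ((e.symm : K →ₗ[ℝ] E') ∘ₗ π')
  have hj : ∀ w, j w = (e w : E) := fun w => rfl
  have hp : ∀ w, p w = e.symm (π' w) := fun w => rfl
  have hjp : ∀ w, j (p w) = π w := by
    intro w
    rw [hj, hp, LinearEquiv.apply_symm_apply]
    rfl
  refine ⟨⟨φ, ?_, ?_, ?_, j, p, ?_, ?_⟩⟩
  · have h8 : φ.source = φ₀.source ∩ V := rfl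
    have h9 : φ₀.source = (chartAt E a).source ∩ (chartAt E a) ⁻¹' Ψ.source :=
        OpenPartialHomeomorph.trans_source _ _
    rw [h8, h9]
    exact ⟨⟨mem_chart_source E a, h1⟩, hV3⟩
  · have h8 : ContMDiffOn 𝓘(ℝ, E) 𝓘(ℝ, E) ∞ (chartAt E a) (chartAt E a).source :=
      contMDiffOn_chart (I := 𝓘(ℝ, E)) (n := ∞) (x := a)
    exact (h3.contMDiffOn).comp (h8.mono fun x hx => (hsub x hx).1) (fun x hx => (hsub x hx).2.1)
  · have h8 : ContMDiffOn 𝓘(ℝ, E) 𝓘(ℝ, E) ∞ (chartAt E a).symm (chartAt E a).target :=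
      contMDiffOn_chart_symm (I := 𝓘(ℝ, E)) (n := ∞) (x := a)
    have htgt : ∀ z ∈ φ.target, z ∈ Ψ.target ∧ Ψ.symm z ∈ (chartAt E a).target := by
      intro z hz
      have hz1 : z ∈ φ₀.target ∩ φ₀.symm ⁻¹' V := hz
      have h9 : φ₀.target = Ψ.target ∩ Ψ.symm ⁻¹' (chartAt E a).target :=
        OpenPartialHomeomorph.trans_target _ _
      rw [h9] at hz1
      exact ⟨hz1.1.1, hz1.1.2⟩
    exact h8.comp ((h4.contMDiffOn).mono fun z hz => (htgt z hz).1) (fun z hz => (htgt z hz).2)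
  · intro w
    rw [hp]
    have h8 : π' (j w) = e w := by
      apply Subtype.ext
      show π (j w) = (e w : E)
      rw [hj]
      exact h6 _ (e w).2
    rw [h8, LinearEquiv.symm_apply_apply]
  · intro x hx
    obtain ⟨-, hx2, hx3⟩ := hsub x hx
    rw [hV1 x hx3, h7 _ hx2, hjp]
    rfl

/-- the tangent space of a zero set -/
theorem exists_tangent {A : Set X} (S : Slices (E := E) E' A) {a : A} {g : E → F}
    (hg : DifferentiableAt ℝ g (chartAt E (a : X) (a : X)))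
    (hdim : Module.finrank ℝ E' = Module.finrank ℝ
      (LinearMap.ker (fderiv ℝ g (chartAt E (a : X) (a : X))).toLinearMap))
    (hA : ∀ᶠ x in 𝓝 (a : X), x ∈ A → g (chartAt E (a : X) x) = 0) :
    (∀ u : E', fderiv ℝ g (chartAt E (a : X) (a : X))
      ((@mfderiv ℝ _ E' _ _ E' _ 𝓘(ℝ, E') A _ S.charted E _ _ E _ 𝓘(ℝ, E) X _ _
        (Subtype.val : A → X) a : E' →L[ℝ] E) u) = 0) ∧
    ∀ v : E, fderiv ℝ g (chartAt E (a : X) (a : X)) v = 0 →
      ∃ u : E', (@mfderiv ℝ _ E' _ _ E' _ 𝓘(ℝ, E') A _ S.charted E _ _ E _ 𝓘(ℝ, E) X _ _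
        (Subtype.val : A → X) a : E' →L[ℝ] E) u = v := by
  let _ := S.charted
  have := S.isManifold
  set Dv : E' →L[ℝ] E := mfderiv 𝓘(ℝ, E') 𝓘(ℝ, E) (Subtype.val : A → X) a with hDv
  set c := chartAt E (a : X) with hc
  have hv : MDifferentiableAt 𝓘(ℝ, E') 𝓘(ℝ, E) (Subtype.val : A → X) a :=
    (S.contMDiff_val a).mdifferentiableAt (by simp)
  have hcd : MDifferentiableAt 𝓘(ℝ, E) 𝓘(ℝ, E) c (a : X) :=
    mdifferentiableAt_atlas (I := 𝓘(ℝ, E)) (chart_mem_atlas E (a : X)) (mem_chart_source E (a : X))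
  have hgc : MDifferentiableAt 𝓘(ℝ, E) 𝓘(ℝ, F) (fun x => g (c x)) (a : X) :=
    MDifferentiableAt.comp (a : X) hg.mdifferentiableAt hcd
  have h1 : mfderiv 𝓘(ℝ, E) 𝓘(ℝ, F) (fun x => g (c x)) (a : X) = fderiv ℝ g (c (a : X)) := by
    rw [hgc.mfderiv]
    have h2 : writtenInExtChartAt 𝓘(ℝ, E) 𝓘(ℝ, F) (a : X) (fun x => g (c x)) =ᶠ[𝓝 (c (a : X))]
        g := by
      filter_upwards [c.open_target.mem_nhds (c.map_source (mem_chart_source E (a : X)))]
        with y hy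
      simp only [writtenInExtChartAt, mfld_simps]
      rw [c.right_inv hy]
    have h3 : extChartAt 𝓘(ℝ, E) (a : X) (a : X) = c (a : X) := by simp [hc, mfld_simps]
    rw [h3]
    simp only [mfld_simps]
    rw [fderivWithin_univ]
    exact h2.fderiv_eq
  have h2 : ∀ u : E', fderiv ℝ g (c (a : X)) (Dv u) = 0 := by
    intro u
    have h3 : (fun x : A => g (c (x : X))) =ᶠ[𝓝 a] fun _ => (0 : F) := by
      have h4 : Tendsto (Subtype.val : A → X) (𝓝 a) (𝓝 (a : X)) := continuous_subtype_val.tendsto a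
      filter_upwards [h4.eventually hA] with x hx
      exact hx x.2
    have h4 := (hgc.hasMFDerivAt.comp a hv.hasMFDerivAt)
    have h5 := (hasMFDerivAt_const (I := 𝓘(ℝ, E')) (I' := 𝓘(ℝ, F)) (0 : F) a).congr_of_eventuallyEq
      h3
    have h6 := hasMFDerivAt_unique h4 h5
    have h7 := DFunLike.congr_fun h6 u
    rw [h1] at h7
    exact h7
  refine ⟨h2, ?_⟩
  have hinj : Function.Injective Dv := S.injective_mfderiv_val a
  set K := LinearMap.ker (fderiv ℝ g (c (a : X))).toLinearMap with hK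
  let T : E' →ₗ[ℝ] K := LinearMap.codRestrict K (Dv : E' →ₗ[ℝ] E) h2
  have hT : Function.Injective T := by
    intro u u' h
    apply hinj
    exact congrArg Subtype.val h
  have hT2 : Function.Surjective T :=
    (LinearMap.injective_iff_surjective_of_finrank_eq_finrank hdim).1 hT
  intro v hv
  obtain ⟨u, hu⟩ := hT2 ⟨v, hv⟩
  exact ⟨u, congrArg Subtype.val hu⟩

end Pool.Agent.H904.IN
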