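import Pool.Agent.H904.IN.Chart
import Pool.Agent.H904.IN.Prod
import Pool.Agent.H904.IN.Slice

/-! # The double cover of the singular set: local description -/

set_option autoImplicit false
set_option linter.unusedSectionVars false

open scoped Topology ContDiff Manifold
open Set Filter Bundle Pool.Agent.Helper186 Pool.Agent.H826R2

noncomputable section

namespace Pool.Agent.H904.IN

open Pool.Agent.N287.WF (DW)

universe u v w

variable {E : Type u} [NormedAddCommGroup E] [NormedSpace ℝ E] [FiniteDimensional ℝ E]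
  {M : Type v} [TopologicalSpace M] [ChartedSpace E M] [IsManifold 𝓘(ℝ, E) ∞ M]
  {W : Type w} [NormedAddCommGroup W] [InnerProductSpace ℝ W] [FiniteDimensional ℝ W]

/-- the rank is at most one -/
def Rk (E : Type u) [NormedAddCommGroup E] [NormedSpace ℝ E] [FiniteDimensional ℝ E]
    {M : Type v} [TopologicalSpace M] [ChartedSpace E M] [IsManifold 𝓘(ℝ, E) ∞ M]
    (f : M → W) (x : M) : Prop :=
  ∃ a : W, ∀ u : TangentSpace 𝓘(ℝ, E) x, ∃ t : ℝ, DW f x u = t • a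

/-- `a` is a unit vector spanning the range of the derivative -/
def Dir (E : Type u) [NormedAddCommGroup E] [NormedSpace ℝ E] [FiniteDimensional ℝ E]
    {M : Type v} [TopologicalSpace M] [ChartedSpace E M] [IsManifold 𝓘(ℝ, E) ∞ M]
    (f : M → W) (x : M) (a : W) : Prop :=
  ‖a‖ = 1 ∧ ∀ u : TangentSpace 𝓘(ℝ, E) x, DW f x u = inner ℝ a (DW f x u) • a

/-- the double cover of the singular set -/
def PP (E : Type u) [NormedAddCommGroup E] [NormedSpace ℝ E] [FiniteDimensional ℝ E]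
    {M : Type v} [TopologicalSpace M] [ChartedSpace E M] [IsManifold 𝓘(ℝ, E) ∞ M]
    (f : M → W) (S : Set M) : Set (M × W) :=
  {p | p.1 ∈ S ∧ Dir E f p.1 p.2}

variable {β : (x : M) → TangentSpace 𝓘(ℝ, E) x →L[ℝ] ℝ}
  {R : (x : M) → TangentSpace 𝓘(ℝ, E) x} {f : M → W}

/-- the index of the field of `⟪a, f⟫` -/
def zi (a : W) : Idx W := (innerSL ℝ a, 0)

/-- the index of `R` -/
def ri (W : Type w) [NormedAddCommGroup W] [InnerProductSpace ℝ W] : Idx W := (0, 1)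

/-- nondegeneracy at a point of rank one -/
def Nd (h : Com β R f) (x₀ : M) (a₀ : W) (l₀ : W →L[ℝ] ℝ) : Prop :=
  (∀ u : TangentSpace 𝓘(ℝ, E) x₀, l₀ (DW f x₀ u) = 0) ∧
  ∀ u : TangentSpace 𝓘(ℝ, E) x₀, DW f x₀ u = 0 →
    (∀ v : TangentSpace 𝓘(ℝ, E) x₀, DW f x₀ v = 0 →
      l₀ (fderiv ℝ (fderiv ℝ (FF (E := E) f x₀)) (chartAt E x₀ x₀) u v) = 0) →
    ∃ a b : ℝ, u = a • R x₀ + b • h.H (zi a₀) x₀

/-- the fields in the chart -/
def XX (h : Com β R f) (x₀ : M) (k : M → E) (i : Idx W) (y : E) : E :=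
  DK k ((chartAt E x₀).symm y) (h.H i ((chartAt E x₀).symm y))

section

variable (h : Com β R f) {x₀ : M} {k : M → E} {V : Set M} (hk : Hat x₀ k V)

include h hk

lemma XX_at {x : M} (hx : x ∈ V) (i : Idx W) :
    XX h x₀ k i (chartAt E x₀ x) = DK k x (h.H i x) := by
  unfold XX
  rw [(chartAt E x₀).left_inv (hk.sub hx)]

lemma XX_at₀ (i : Idx W) : XX h x₀ k i (chartAt E x₀ x₀) = h.H i x₀ := by
  rw [XX_at h hk hk.mem, hk.at₀]
  rfl

lemma DW_at₀ (u : TangentSpace 𝓘(ℝ, E) x₀) :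
    DW f x₀ u = fderiv ℝ (FF (E := E) f x₀) (chartAt E x₀ x₀) u := by
  rw [hk.DW_eq h.smooth hk.mem, hk.at₀]
  rfl

lemma indep_RH {a₀ : W} {v : TangentSpace 𝓘(ℝ, E) x₀} (hv : inner ℝ a₀ (DW f x₀ v) ≠ (0:ℝ))
    (a b : ℝ) (hab : a • R x₀ + b • h.H (zi a₀) x₀ = 0) : a = 0 ∧ b = 0 := by
  have h1 : extDerL 𝓘(ℝ, E) β x₀ (a • R x₀ + b • h.H (zi a₀) x₀) v = 0 := by
    rw [hab, map_zero]; rfl
  have h2 : extDerL 𝓘(ℝ, E) β x₀ (a • R x₀ + b • h.H (zi a₀) x₀) v =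
      a * extDer 𝓘(ℝ, E) β x₀ (R x₀) v + b * extDer 𝓘(ℝ, E) β x₀ (h.H (zi a₀) x₀) v := by
    rw [map_add, map_smul, map_smul, ← extDerL_apply, ← extDerL_apply]
    rfl
  rw [h2, h.cd.reeb.kernel, h.d_H, mul_zero, zero_add] at h1
  have hb : b = 0 := by
    rcases mul_eq_zero.1 h1 with h3 | h3
    · exact h3
    · exact absurd (neg_eq_zero.1 h3) hv
  rw [hb, zero_smul, add_zero] at hab
  refine ⟨?_, hb⟩
  have h3 : β x₀ (a • R x₀) = 0 := by rw [hab, map_zero]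
  rw [map_smul, h.cd.reeb.unit, smul_eq_mul, mul_one] at h3
  exact h3

/-- the point data -/
lemma exists_Pt {a₀ : W} (ha : Dir E f x₀ a₀) (hne : ∃ v : TangentSpace 𝓘(ℝ, E) x₀, DW f x₀ v ≠ 0)
    {l₀ : W →L[ℝ] ℝ} (hnd : Nd h x₀ a₀ l₀) :
    ∃ (U : Set E) (v₀ : E), U ⊆ (chartAt E x₀).target ∧ (∀ y ∈ U, (chartAt E x₀).symm y ∈ V) ∧
      fderiv ℝ (FF (E := E) f x₀) (chartAt E x₀ x₀) v₀ = a₀ ∧
      Pt (FF (E := E) f x₀) U (chartAt E x₀ x₀) (XX h x₀ k) (ri W) (zi a₀) l₀ (innerSL ℝ a₀) v₀ := by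
  set c := chartAt E x₀ with hc
  set F := FF (E := E) f x₀ with hF
  set y₀ := c x₀ with hy₀
  have hy₀t : y₀ ∈ c.target := c.map_source (mem_chart_source E x₀)
  obtain ⟨v, hv⟩ : ∃ v : E, (DW f x₀ : E →L[ℝ] W) v ≠ 0 := hne
  set t : ℝ := inner ℝ a₀ ((DW f x₀ : E →L[ℝ] W) v) with ht
  have hvt : (DW f x₀ : E →L[ℝ] W) v = t • a₀ := ha.2 v
  have ht0 : t ≠ 0 := by
    intro h0
    rw [h0, zero_smul] at hvt
    exact hv hvt
  set v₀ : E := t⁻¹ • v with hv₀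
  have hDv₀ : fderiv ℝ F y₀ v₀ = a₀ := by
    have h1 : fderiv ℝ F y₀ v = t • a₀ := by
      rw [← hvt]
      exact (DW_at₀ h hk v).symm
    rw [hv₀, map_smul, h1, smul_smul, inv_mul_cancel₀ ht0, one_smul]
  -- the open set
  set U₀ : Set E := c.target ∩ c.symm ⁻¹' V with hU₀
  have hU₀o : IsOpen U₀ := c.symm.continuousOn.isOpen_inter_preimage c.open_target hk.opn
  have hsF : ContDiffOn ℝ ∞ F c.target := smooth_FF h.smooth x₀
  have hsD : ContDiffOn ℝ ∞ (fderiv ℝ F) c.target :=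
    hsF.fderiv_of_isOpen c.open_target (by simp)
  have hcont : ContinuousOn (fun y => innerSL ℝ a₀ (fderiv ℝ F y v₀)) U₀ :=
    (innerSL ℝ a₀).continuous.comp_continuousOn
      ((hsD.continuousOn.mono inter_subset_left).clm_apply continuousOn_const)
  set U : Set E := U₀ ∩ (fun y => innerSL ℝ a₀ (fderiv ℝ F y v₀)) ⁻¹' {0}ᶜ with hU
  have hUo : IsOpen U := hcont.isOpen_inter_preimage hU₀o isOpen_compl_singleton
  have hsub : U ⊆ c.target := fun y hy => hy.1.1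
  have hmem : y₀ ∈ U := by
    refine ⟨⟨hy₀t, ?_⟩, ?_⟩
    · show c.symm y₀ ∈ V
      rw [hy₀, c.left_inv (mem_chart_source E x₀)]
      exact hk.mem
    · show innerSL ℝ a₀ (fderiv ℝ F y₀ v₀) ≠ 0
      rw [hDv₀, innerSL_apply_apply, real_inner_self_eq_norm_sq, ha.1]
      norm_num
  have hR0 : XX h x₀ k (ri W) y₀ = R x₀ := by
    rw [hy₀, XX_at₀ h hk]
    exact h.H_reeb x₀
  have hZ0 : XX h x₀ k (zi a₀) y₀ = h.H (zi a₀) x₀ := XX_at₀ h hk _
  refine ⟨U, v₀, hsub, fun y hy => hy.1.2, hDv₀, ?_⟩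
  refine ⟨hUo, hmem, hsF.mono hsub, fun i => (hk.smooth_push (h.smooth_H i)).mono hsub, ?_, ?_, ?_,
    ?_, fun y hy => hy.2, ?_⟩
  · intro i y hy
    set x := c.symm y with hx
    have hxV : x ∈ V := hy.1.2
    have h1 := hk.DW_eq h.smooth hxV (h.H i x)
    rw [h.ker_H] at h1
    have h2 : c x = y := c.right_inv hy.1.1
    rw [← hc, h2] at h1
    exact h1.symm
  · intro a b hab
    rw [hR0, hZ0] at hab
    exact indep_RH h hk (v := v) (by rw [← ht]; exact ht0) a b hab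
  · intro u
    have h1 := hnd.1 u
    rw [DW_at₀ h hk] at h1
    exact h1
  · intro u hu
    have h1 := ha.2 u
    rw [DW_at₀ h hk] at h1
    rw [h1]
    have h2 : (inner ℝ a₀ (fderiv ℝ F y₀ u) : ℝ) = 0 := hu
    rw [h2, zero_smul]
  · intro u hu hu2
    rw [hR0, hZ0]
    refine hnd.2 u ?_ ?_
    · rw [DW_at₀ h hk]; exact hu
    · intro v' hv'
      rw [DW_at₀ h hk] at hv'
      exact hu2 v' hv'

end

end Pool.Agent.H904.IN
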