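import Pool.Agent.H904.IN.Cover

/-! # The double cover of the singular set: the defining function -/

set_option autoImplicit false
set_option linter.unusedSectionVars false

open scoped Topology ContDiff Manifold
open Set Filter Bundle Pool.Agent.Helper186 Pool.Agent.H826R2

noncomputable section

namespace Pool.Agent.H904.IN

open Pool.Agent.N287.WF (DW)

universe u v w

variable {E : Type u} [NormedAddCommGroup E] [NormedSpace ℝ E] [FiniteDimensional ℝ E]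
  {M : Type v} [TopologicalSpace M] [ChartedSpace E M] [IsManifold 𝓘(ℝ, E) ∞ M]
  {W : Type w} [NormedAddCommGroup W] [InnerProductSpace ℝ W] [FiniteDimensional ℝ W]
  {β : (x : M) → TangentSpace 𝓘(ℝ, E) x →L[ℝ] ℝ}
  {R : (x : M) → TangentSpace 𝓘(ℝ, E) x} {f : M → W}

/-- a zero of the defining function has rank one -/
lemma rank_of_zero (h : Com β R f) {x₀ : M} {k : M → E} {V : Set M} (hk : Hat x₀ k V)
    {a₀ : W} {x : M} (hx : x ∈ V)
    (hX : ∀ i, ∃ a b : ℝ, XX h x₀ k i (chartAt E x₀ x) =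
      a • XX h x₀ k (ri W) (chartAt E x₀ x) + b • XX h x₀ k (zi a₀) (chartAt E x₀ x))
    {q : TangentSpace 𝓘(ℝ, E) x} (hq : inner ℝ a₀ (DW f x q) ≠ (0 : ℝ))
    (v : TangentSpace 𝓘(ℝ, E) x) :
    DW f x v = (inner ℝ a₀ (DW f x v) / inner ℝ a₀ (DW f x q) : ℝ) • DW f x q := by
  set s : ℝ := inner ℝ a₀ (DW f x v) / inner ℝ a₀ (DW f x q) with hs
  have hl : ∀ ℓ : W →L[ℝ] ℝ, ∃ b : ℝ, ∀ u : TangentSpace 𝓘(ℝ, E) x,
      ℓ (DW f x u) = b * inner ℝ a₀ (DW f x u) := by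
    intro ℓ
    obtain ⟨a, b, hab⟩ := hX (ℓ, 0)
    rw [XX_at h hk hx, XX_at h hk hx, XX_at h hk hx] at hab
    have h1 : DK k x (h.H (ℓ, 0) x) = DK k x (a • (h.H (ri W) x : E) + b • (h.H (zi a₀) x : E)) := by
      refine hab.trans ?_
      have e1 : ∀ u v : E, DK k x (a • u + b • v) = a • DK k x u + b • DK k x v := fun u v => by
        rw [map_add, map_smul, map_smul]
      exact (e1 _ _).symm
    have h2 : (h.H (ℓ, 0) x : E) = a • (h.H (ri W) x : E) + b • (h.H (zi a₀) x : E) :=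
      (hk.bij hx).1 h1
    refine ⟨b, fun u => ?_⟩
    have h3 := h.d_H (ℓ, 0) x u
    have h4 : extDer 𝓘(ℝ, E) β x (h.H (ℓ, 0) x) u =
        a * extDer 𝓘(ℝ, E) β x (h.H (ri W) x) u + b * extDer 𝓘(ℝ, E) β x (h.H (zi a₀) x) u := by
      rw [← extDerL_apply, ← extDerL_apply, ← extDerL_apply]
      have h5 : extDerL 𝓘(ℝ, E) β x (h.H (ℓ, 0) x) =
          extDerL 𝓘(ℝ, E) β x (a • h.H (ri W) x + b • h.H (zi a₀) x) := by
        congr 1
      rw [h5, map_add, map_smul, map_smul]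
      rfl
    rw [h4, h.d_H, h.d_H] at h3
    have h6 : (ri W).1 = 0 := rfl
    have h7 : (zi a₀).1 (DW f x u) = inner ℝ a₀ (DW f x u) := rfl
    rw [h6, h7, _root_.zero_apply, neg_zero, mul_zero, zero_add] at h3
    have h8 : ((ℓ, (0 : ℝ)) : Idx W).1 = ℓ := rfl
    rw [h8] at h3
    linarith
  rw [← sub_eq_zero]
  set d := DW f x v - s • DW f x q with hd
  obtain ⟨b, hb⟩ := hl (innerSL ℝ d)
  have h1 : (inner ℝ d d : ℝ) = 0 := by
    have h2 : (inner ℝ d d : ℝ) = innerSL ℝ d (DW f x v) - s * innerSL ℝ d (DW f x q) := by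
      rw [innerSL_apply_apply, innerSL_apply_apply, ← inner_smul_right, ← inner_sub_right]
    rw [h2, hb, hb, hs]
    field_simp
    ring
  exact inner_self_eq_zero.1 h1

/-- the unit vector -/
def nn (F : E → W) (v₀ : E) (y : E) : W := ‖fderiv ℝ F y v₀‖⁻¹ • fderiv ℝ F y v₀

/-- the defining function of the double cover -/
def gg (F : E → W) (l₀ l₁ : W →L[ℝ] ℝ) (v₀ : E) {m : ℕ} (c : Fin m → E) (p : E × W) :
    (Fin m → ℝ) × W := (Pt.G F l₀ l₁ v₀ c p.1, p.2 - nn F v₀ p.1)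

attribute [local instance] csProd

/-- **the defining function of the double cover** -/
theorem exists_g [T2Space M] (h : Com β R f) {S : Set M} {x₀ : M}
    (hS : ∀ᶠ y in 𝓝 x₀, y ∈ S ↔ Rk E f y) {a₀ : W} (ha : Dir E f x₀ a₀)
    (hne : ∃ v : TangentSpace 𝓘(ℝ, E) x₀, DW f x₀ v ≠ 0)
    {l₀ : W →L[ℝ] ℝ} (hnd : Nd h x₀ a₀ l₀) :
    ∃ (m : ℕ) (g : E × W → (Fin m → ℝ) × W) (U : Set (E × W)), IsOpen U ∧ ContDiffOn ℝ ∞ g U ∧
      (chartAt E x₀ x₀, a₀) ∈ U ∧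
      Function.Surjective (fderiv ℝ g (chartAt E x₀ x₀, a₀)) ∧
      Module.finrank ℝ (LinearMap.ker (fderiv ℝ g (chartAt E x₀ x₀, a₀)).toLinearMap) = 3 ∧
      (∀ᶠ p in 𝓝 ((x₀, a₀) : M × W), p ∈ PP E f S ↔ g (chartAt E x₀ p.1, p.2) = 0) ∧
      (∀ (u : E) (w : W), fderiv ℝ g (chartAt E x₀ x₀, a₀) (u, w) = 0 → u = 0 → w = 0) ∧
      (∃ w : W, fderiv ℝ g (chartAt E x₀ x₀, a₀) ((R x₀ : E), w) = 0) ∧
      (∃ w : W, fderiv ℝ g (chartAt E x₀ x₀, a₀) ((h.H (zi a₀) x₀ : E), w) = 0) ∧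
      (∃ (Y : E) (w : W), fderiv ℝ g (chartAt E x₀ x₀, a₀) (Y, w) = 0 ∧
        inner ℝ a₀ ((DW f x₀ : E →L[ℝ] W) Y) ≠ (0 : ℝ)) ∧
      (∀ (u : E) (w : W), fderiv ℝ g (chartAt E x₀ x₀, a₀) (u, w) = 0 →
        (DW f x₀ : E →L[ℝ] W) u = 0 →
        ∃ a b : ℝ, u = a • (R x₀ : E) + b • (h.H (zi a₀) x₀ : E)) := by
  obtain ⟨k, V, hk⟩ := exists_hat (E := E) x₀
  obtain ⟨U, v₀, hUt, hUV, hv₀, hpt⟩ := exists_Pt h hk ha hne hnd
  obtain ⟨m, c, U', hU'o, hy₀, hU'U, hG, hGs, hGk, hGX, hGY, hGker, hGz, hGr⟩ := hpt.conclusion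
  set y₀ := chartAt E x₀ x₀ with hy₀'
  set F := FF (E := E) f x₀ with hF
  set l₁ : W →L[ℝ] ℝ := innerSL ℝ a₀ with hl₁
  set G := Pt.G F l₀ l₁ v₀ c with hGd
  set n : E → W := nn F v₀ with hn
  have hF0 : ∀ y ∈ U, fderiv ℝ F y v₀ ≠ 0 := by
    intro y hy h0
    apply hpt.ne y hy
    rw [h0, map_zero]
  have hsD : ContDiffOn ℝ ∞ (fun y => fderiv ℝ F y v₀) U := hpt.smD.clm_apply contDiffOn_const
  have hsn : ContDiffOn ℝ ∞ n U := by
    have h1 : ContDiffOn ℝ ∞ (fun y => ‖fderiv ℝ F y v₀‖) U := hsD.norm ℝ hF0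
    exact (h1.inv fun y hy => norm_ne_zero_iff.2 (hF0 y hy)).smul hsD
  set g : E × W → (Fin m → ℝ) × W := gg F l₀ l₁ v₀ c with hg
  have hgs : ContDiffOn ℝ ∞ g (U' ×ˢ univ) := by
    have h1 : ContDiffOn ℝ ∞ (fun p : E × W => G p.1) (U' ×ˢ univ) :=
      hG.comp contDiffOn_fst fun p hp => hp.1
    have h2 : ContDiffOn ℝ ∞ (fun p : E × W => n p.1) (U' ×ˢ univ) :=
      (hsn.mono hU'U).comp contDiffOn_fst fun p hp => hp.1
    exact h1.prodMk (contDiffOn_snd.sub h2)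
  have hdG : HasFDerivAt G (fderiv ℝ G y₀) y₀ :=
    ((hG.contDiffAt (hU'o.mem_nhds hy₀)).differentiableAt (by simp)).hasFDerivAt
  have hdn : HasFDerivAt n (fderiv ℝ n y₀) y₀ :=
    ((hsn.contDiffAt (hpt.opn.mem_nhds (hU'U hy₀))).differentiableAt (by simp)).hasFDerivAt
  set G' := fderiv ℝ G y₀ with hG'
  set n' := fderiv ℝ n y₀ with hn'
  have hdg : HasFDerivAt g ((G'.comp (ContinuousLinearMap.fst ℝ E W)).prod
      (ContinuousLinearMap.snd ℝ E W - n'.comp (ContinuousLinearMap.fst ℝ E W))) (y₀, a₀) := by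
    have e1 : HasFDerivAt (fun p : E × W => G p.1) (G'.comp (ContinuousLinearMap.fst ℝ E W))
        (y₀, a₀) := HasFDerivAt.comp (g := G) (f := Prod.fst) (y₀, a₀) hdG hasFDerivAt_fst
    have e2 : HasFDerivAt (fun p : E × W => n p.1) (n'.comp (ContinuousLinearMap.fst ℝ E W))
        (y₀, a₀) := HasFDerivAt.comp (g := n) (f := Prod.fst) (y₀, a₀) hdn hasFDerivAt_fst
    exact e1.prodMk (hasFDerivAt_snd.sub e2)
  have hg' : ∀ (u : E) (w : W), fderiv ℝ g (y₀, a₀) (u, w) = (G' u, w - n' u) := by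
    intro u w
    rw [hdg.fderiv]
    rfl
  have hg0 : ∀ (u : E) (w : W), fderiv ℝ g (y₀, a₀) (u, w) = 0 ↔ G' u = 0 ∧ w = n' u := by
    intro u w
    rw [hg', Prod.mk_eq_zero, sub_eq_zero]
  have hsurj : Function.Surjective (fderiv ℝ g (y₀, a₀)) := by
    rintro ⟨s, w⟩
    obtain ⟨u, hu⟩ := hGs s
    refine ⟨(u, w + n' u), ?_⟩
    rw [hg', hu, add_sub_cancel_right]
  have hR0 : XX h x₀ k (ri W) y₀ = R x₀ := by
    rw [hy₀', XX_at₀ h hk]
    exact h.H_reeb x₀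
  have hZ0 : XX h x₀ k (zi a₀) y₀ = h.H (zi a₀) x₀ := XX_at₀ h hk _
  have hD0 : ∀ u : E, (DW f x₀ : E →L[ℝ] W) u = fderiv ℝ F y₀ u := fun u => DW_at₀ h hk u
  refine ⟨m, g, U' ×ˢ univ, hU'o.prod isOpen_univ, hgs, ⟨hy₀, mem_univ _⟩, hsurj, ?_, ?_, ?_, ?_,
    ?_, ?_, ?_⟩
  · -- the dimension
    have e1 := LinearMap.finrank_range_add_finrank_ker (fderiv ℝ g (y₀, a₀)).toLinearMap
    have e2 := LinearMap.finrank_range_add_finrank_ker G'.toLinearMap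
    rw [LinearMap.range_eq_top.2 hsurj, finrank_top, Module.finrank_prod, Module.finrank_prod] at e1
    rw [LinearMap.range_eq_top.2 hGs, finrank_top, hGk] at e2
    omega
  · -- near the point
    have c1 : ∀ᶠ p in 𝓝 ((x₀, a₀) : M × W), p.1 ∈ V :=
      continuousAt_fst.preimage_mem_nhds (hk.opn.mem_nhds hk.mem)
    have hcc : ContinuousAt (fun p : M × W => chartAt E x₀ p.1) (x₀, a₀) :=
      ContinuousAt.comp (g := chartAt E x₀) (f := Prod.fst)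
        ((chartAt E x₀).continuousAt (mem_chart_source E x₀)) continuousAt_fst
    have c2 : ∀ᶠ p in 𝓝 ((x₀, a₀) : M × W), chartAt E x₀ p.1 ∈ U' :=
      hcc.preimage_mem_nhds (hU'o.mem_nhds hy₀)
    have c3 : ∀ᶠ p in 𝓝 ((x₀, a₀) : M × W), p.1 ∈ S ↔ Rk E f p.1 :=
      (continuousAt_fst (p := ((x₀, a₀) : M × W))).eventually hS
    have c4 : ∀ᶠ p in 𝓝 ((x₀, a₀) : M × W),
        (0 : ℝ) < inner ℝ p.2 (fderiv ℝ F (chartAt E x₀ p.1) v₀) := by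
      have hc1 : ContinuousAt (fun y => fderiv ℝ F y v₀) y₀ :=
        (hsD.contDiffAt (hpt.opn.mem_nhds (hU'U hy₀))).continuousAt
      have hc2 : ContinuousAt (fun p : M × W => fderiv ℝ F (chartAt E x₀ p.1) v₀) (x₀, a₀) :=
        ContinuousAt.comp (g := fun y => fderiv ℝ F y v₀) (f := fun p : M × W => chartAt E x₀ p.1)
          hc1 hcc
      have hc3 : ContinuousAt (fun p : M × W => (inner ℝ p.2 (fderiv ℝ F (chartAt E x₀ p.1) v₀) : ℝ))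
          (x₀, a₀) := continuousAt_snd.inner hc2
      refine hc3.eventually (Ioi_mem_nhds ?_)
      show (0 : ℝ) < inner ℝ a₀ (fderiv ℝ F y₀ v₀)
      rw [hv₀, real_inner_self_eq_norm_sq, ha.1]
      norm_num
    filter_upwards [c1, c2, c3, c4] with p hp1 hp2 hp3 hp4
    obtain ⟨x, a⟩ := p
    simp only at hp1 hp2 hp3 hp4
    have hxU : chartAt E x₀ x ∈ U := hU'U hp2
    have hDx : ∀ u : E, (DW f x : E →L[ℝ] W) u = fderiv ℝ F (chartAt E x₀ x) (DK k x u) :=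
      fun u => hk.DW_eq h.smooth hp1 u
    obtain ⟨q, hq⟩ := (hk.bij hp1).2 v₀
    have hDq : (DW f x : E →L[ℝ] W) q = fderiv ℝ F (chartAt E x₀ x) v₀ := by rw [hDx, hq]
    set y := chartAt E x₀ x with hy
    have hg00 : g (y, a) = 0 ↔ G y = 0 ∧ a = n y := by
      show (G y, a - n y) = 0 ↔ _
      rw [Prod.mk_eq_zero, sub_eq_zero]
    show (x ∈ S ∧ Dir E f x a) ↔ g (y, a) = 0
    rw [hg00]
    constructor
    · rintro ⟨hxS, ha1, ha2⟩
      have e0 : ∀ u : E, fderiv ℝ F y u = (inner ℝ a (fderiv ℝ F y u) : ℝ) • a := by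
        intro u
        obtain ⟨u', rfl⟩ := (hk.bij hp1).2 u
        rw [← hDx]
        exact ha2 u'
      refine ⟨hGr y hp2 ?_, ?_⟩
      · intro u hu
        have e1 : l₁ (fderiv ℝ F y v₀) ≠ 0 := hpt.ne y hxU
        rw [e0 v₀, map_smul] at e1
        have e2 : l₁ a ≠ 0 := fun h0 => e1 (by rw [h0, smul_zero])
        rw [e0 u, map_smul, smul_eq_mul] at hu
        have e3 := (mul_eq_zero.1 hu).resolve_right e2
        rw [e0 u, e3, zero_smul]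
      · have e1 := e0 v₀
        set t : ℝ := inner ℝ a (fderiv ℝ F y v₀) with ht
        show a = ‖fderiv ℝ F y v₀‖⁻¹ • fderiv ℝ F y v₀
        rw [e1, norm_smul, ha1, mul_one, Real.norm_of_nonneg hp4.le, smul_smul,
          inv_mul_cancel₀ hp4.ne', one_smul]
    · rintro ⟨hGy, han⟩
      have e1 : (inner ℝ a₀ ((DW f x : E →L[ℝ] W) q) : ℝ) ≠ 0 := by
        rw [hDq]
        exact hpt.ne y hxU
      have e2 : ∀ v : E, (DW f x : E →L[ℝ] W) v = (inner ℝ a₀ ((DW f x : E →L[ℝ] W) v) /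
          inner ℝ a₀ ((DW f x : E →L[ℝ] W) q) : ℝ) • (DW f x : E →L[ℝ] W) q := fun v =>
        rank_of_zero h hk hp1 (fun i => hGz y hp2 hGy i) e1 v
      have hq0 : ‖fderiv ℝ F y v₀‖ ≠ 0 := norm_ne_zero_iff.2 (hF0 y hxU)
      have hqa : (DW f x : E →L[ℝ] W) q = ‖fderiv ℝ F y v₀‖ • a := by
        rw [han, hDq]
        show fderiv ℝ F y v₀ = ‖fderiv ℝ F y v₀‖ • (‖fderiv ℝ F y v₀‖⁻¹ • fderiv ℝ F y v₀)
        rw [smul_smul, mul_inv_cancel₀ hq0, one_smul]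
      have ha1 : ‖a‖ = 1 := by
        rw [han]
        show ‖‖fderiv ℝ F y v₀‖⁻¹ • fderiv ℝ F y v₀‖ = 1
        rw [norm_smul, norm_inv, norm_norm, inv_mul_cancel₀ hq0]
      refine ⟨hp3.2 ⟨(DW f x : E →L[ℝ] W) q, fun u => ⟨_, e2 u⟩⟩, ha1, fun u => ?_⟩
      have e3 : (DW f x : E →L[ℝ] W) u = (inner ℝ a₀ ((DW f x : E →L[ℝ] W) u) /
          inner ℝ a₀ ((DW f x : E →L[ℝ] W) q) * ‖fderiv ℝ F y v₀‖ : ℝ) • a := by
        rw [← smul_smul, ← hqa]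
        exact e2 u
      show (DW f x : E →L[ℝ] W) u = (inner ℝ a ((DW f x : E →L[ℝ] W) u) : ℝ) • a
      rw [e3, inner_smul_right, real_inner_self_eq_norm_sq, ha1]
      norm_num
  · intro u w hu h0
    have e1 := ((hg0 u w).1 hu).2
    rw [e1, h0, map_zero]
  · refine ⟨n' (R x₀ : E), (hg0 _ _).2 ⟨?_, rfl⟩⟩
    rw [← hR0]
    exact hGX _
  · refine ⟨n' (h.H (zi a₀) x₀ : E), (hg0 _ _).2 ⟨?_, rfl⟩⟩
    rw [← hZ0]
    exact hGX _
  · obtain ⟨Y, hY1, hY2⟩ := hGY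
    refine ⟨Y, n' Y, (hg0 _ _).2 ⟨hY1, rfl⟩, ?_⟩
    rw [hD0]
    exact hY2
  · intro u w hu hu2
    rw [hD0] at hu2
    obtain ⟨a, b, hab⟩ := hGker u ((hg0 u w).1 hu).1 hu2
    refine ⟨a, b, ?_⟩
    rw [hab, hR0, hZ0]
    rfl

end Pool.Agent.H904.IN
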