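import Pool.Agent.H904.IN.Main
import Pool.Agent.H904.SF.Final
import Pool.Graph.R_pool_sql_team_seeded_64922ed1.X167.W.CritStmt

/-! # Commuting first integrals with nondegenerate points of rank at most one -/

set_option autoImplicit false
set_option linter.unusedSectionVars false

open scoped Topology ContDiff Manifold
open Set Filter Bundle Pool.Agent.Helper186 Pool.Agent.H826R2 Pool.Agent.H826R2.WStmt

noncomputable section

namespace Pool.Agent.H904.IN

open Pool.Agent.N287.WF (DW)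
open Pool.Agent.X167.W (hess)

universe u v w

section

variable {E : Type u} [NormedAddCommGroup E] [NormedSpace ℝ E]
  {M : Type v} [TopologicalSpace M] [ChartedSpace E M]
  {W : Type w} [NormedAddCommGroup W] [InnerProductSpace ℝ W]

/-- **Commuting first integrals** of the field `R`, combined to a map `f : M → W` to a Euclidean space:
the derivative of `f` vanishes on `R` and on all the Hamiltonian vectors `u`,
`dα(u, ·) = d(ℓ ∘ f)`, of the functions `ℓ ∘ f`. -/
structure Commuting (α : M → Cov E) (R : M → E) (f : M → W) : Prop where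
  smooth : ContMDiff 𝓘(ℝ, E) 𝓘(ℝ, W) ∞ f
  first : ∀ x, D (E := E) (E' := W) f x (R x) = 0
  involution : ∀ (x : M) (u : E) (ℓ : W →L[ℝ] ℝ),
    (∀ v : E, WStmt.extDer α x u v = ℓ (D (E := E) (E' := W) f x v)) →
    D (E := E) (E' := W) f x u = 0

/-- the rank of the derivative -/
def rank (E : Type u) [NormedAddCommGroup E] [NormedSpace ℝ E]
    {M : Type v} [TopologicalSpace M] [ChartedSpace E M] (f : M → W) (x : M) : ℕ :=
  Module.finrank ℝ (LinearMap.range (D (E := E) (E' := W) f x : E →ₗ[ℝ] W))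

/-- the kernel of the Hessian of `ℓ ∘ f` restricted to the kernel of the derivative of `f` -/
def hessKer (E : Type u) [NormedAddCommGroup E] [NormedSpace ℝ E]
    {M : Type v} [TopologicalSpace M] [ChartedSpace E M] (f : M → W) (ℓ : W →L[ℝ] ℝ) (x : M) :
    Submodule ℝ E where
  carrier := {u | D (E := E) (E' := W) f x u = 0 ∧ ∀ v : E, D (E := E) (E' := W) f x v = 0 →
    hess (fun y => ℓ (f y)) x u v = 0}
  zero_mem' := by
    refine ⟨map_zero _, fun v _ => ?_⟩
    unfold hess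
    rw [map_zero]
    rfl
  add_mem' := by
    rintro u u' ⟨h1, h2⟩ ⟨h3, h4⟩
    refine ⟨by rw [map_add, h1, h3, add_zero], fun v hv => ?_⟩
    have h5 := h2 v hv
    have h6 := h4 v hv
    unfold hess at h5 h6 ⊢
    rw [map_add, _root_.add_apply, h5, h6, add_zero]
  smul_mem' := by
    rintro s u ⟨h1, h2⟩
    refine ⟨by rw [map_smul, h1, smul_zero], fun v hv => ?_⟩
    have h5 := h2 v hv
    unfold hess at h5 ⊢
    rw [map_smul, _root_.smul_apply, h5, smul_zero]

/-- The point `x` is nondegenerate: some combination `ℓ ∘ f` of the functions is critical at `x`, and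
its Hessian on the kernel of the derivative of `f` has a kernel of dimension at most `1 + rank`
(the smallest possible value: the kernel contains `R` and the Hamiltonian vectors). -/
def Nondegenerate (E : Type u) [NormedAddCommGroup E] [NormedSpace ℝ E]
    {M : Type v} [TopologicalSpace M] [ChartedSpace E M] (f : M → W) (x : M) : Prop :=
  ∃ ℓ : W →L[ℝ] ℝ, (∀ u : E, ℓ (D (E := E) (E' := W) f x u) = 0) ∧
    Module.finrank ℝ (hessKer E f ℓ x) ≤ 1 + rank E f x

end

variable {E : Type u} [NormedAddCommGroup E] [NormedSpace ℝ E] [FiniteDimensional ℝ E]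
  {M : Type v} [TopologicalSpace M] [ChartedSpace E M] [IsManifold 𝓘(ℝ, E) ∞ M]
  {W : Type w} [NormedAddCommGroup W] [InnerProductSpace ℝ W] [FiniteDimensional ℝ W]
  {α : M → Cov E} {R : M → E} {f : M → W}

lemma Commuting.com (hα : WStmt.IsContact α) (hR : WStmt.IsReeb α R) (hf : Commuting α R f) :
    Com (toForm α) (fun x => (R x : TangentSpace 𝓘(ℝ, E) x)) f where
  cd := ⟨hα.toWein, hR.toWein⟩
  smooth := hf.smooth
  first := hf.first
  inv := fun x u ℓ hu => hf.involution x u ℓ hu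

lemma rank_le_one {x : M} : rank E f x ≤ 1 ↔ Rk E f x := by
  unfold rank
  rw [finrank_le_one_iff]
  constructor
  · rintro ⟨⟨a, ha⟩, h⟩
    refine ⟨a, fun u => ?_⟩
    obtain ⟨c, hc⟩ := h ⟨D (E := E) (E' := W) f x u, LinearMap.mem_range_self _ (u : E)⟩
    exact ⟨c, (congrArg Subtype.val hc).symm⟩
  · rintro ⟨a, ha⟩
    by_cases h0 : ∀ u : E, D (E := E) (E' := W) f x u = 0
    · refine ⟨0, ?_⟩
      rintro ⟨_, u, rfl⟩
      refine ⟨0, ?_⟩
      apply Subtype.ext
      rw [zero_smul]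
      exact (h0 u).symm
    · push Not at h0
      obtain ⟨v, hv⟩ := h0
      obtain ⟨t, ht⟩ := ha v
      have ht' : D (E := E) (E' := W) f x v = t • a := ht
      have ht0 : t ≠ 0 := by
        intro h1
        rw [h1, zero_smul] at ht'
        exact hv ht'
      refine ⟨⟨D (E := E) (E' := W) f x v, LinearMap.mem_range_self _ v⟩, ?_⟩
      rintro ⟨_, u, rfl⟩
      obtain ⟨s, hs⟩ := ha u
      have hs' : D (E := E) (E' := W) f x u = s • a := hs
      refine ⟨s * t⁻¹, ?_⟩
      apply Subtype.ext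
      show (s * t⁻¹) • D (E := E) (E' := W) f x v = D (E := E) (E' := W) f x u
      rw [ht', hs', smul_smul, mul_assoc, inv_mul_cancel₀ ht0, mul_one]

/-- the Hessian in the chart -/
lemma hess_eq (hf : ContMDiff 𝓘(ℝ, E) 𝓘(ℝ, W) ∞ f) (ℓ : W →L[ℝ] ℝ) (x : M) (u v : E) :
    hess (fun y => ℓ (f y)) x u v =
      ℓ (fderiv ℝ (fderiv ℝ (FF (E := E) f x)) (chartAt E x x) u v) := by
  have e1 : (fun p : E => ℓ (f ((extChartAt 𝓘(ℝ, E) x).symm p))) =
      fun p => ℓ (FF (E := E) f x p) := by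
    funext p
    simp only [FF, mfld_simps]
  have e2 : extChartAt 𝓘(ℝ, E) x x = chartAt E x x := by simp only [mfld_simps]
  unfold hess
  rw [e1, e2]
  have hy : chartAt E x x ∈ (chartAt E x).target := (chartAt E x).map_source (mem_chart_source E x)
  have hsm := smooth_FF hf x
  have e3 : fderiv ℝ (fun p => ℓ (FF (E := E) f x p)) =ᶠ[𝓝 (chartAt E x x)]
      fun p => (ContinuousLinearMap.compL ℝ E W ℝ ℓ) (fderiv ℝ (FF (E := E) f x) p) := by
    filter_upwards [(chartAt E x).open_target.mem_nhds hy] with p hp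
    have h1 : HasFDerivAt (FF (E := E) f x) (fderiv ℝ (FF (E := E) f x) p) p :=
      ((hsm.contDiffAt ((chartAt E x).open_target.mem_nhds hp)).differentiableAt
        (by simp)).hasFDerivAt
    exact (ℓ.hasFDerivAt.comp p h1).fderiv
  rw [e3.fderiv_eq]
  have h2 : HasFDerivAt (fderiv ℝ (FF (E := E) f x))
      (fderiv ℝ (fderiv ℝ (FF (E := E) f x)) (chartAt E x x)) (chartAt E x x) := by
    have h3 : ContDiffOn ℝ ∞ (fderiv ℝ (FF (E := E) f x)) (chartAt E x).target :=
      hsm.fderiv_of_isOpen (chartAt E x).open_target (by simp)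
    exact ((h3.contDiffAt ((chartAt E x).open_target.mem_nhds hy)).differentiableAt
      (by simp)).hasFDerivAt
  have h4 := ((ContinuousLinearMap.compL ℝ E W ℝ ℓ).hasFDerivAt.comp (chartAt E x x) h2).fderiv
  have h5 : fderiv ℝ (fun p => (ContinuousLinearMap.compL ℝ E W ℝ ℓ)
      (fderiv ℝ (FF (E := E) f x) p)) (chartAt E x x) =
      (ContinuousLinearMap.compL ℝ E W ℝ ℓ).comp
        (fderiv ℝ (fderiv ℝ (FF (E := E) f x)) (chartAt E x x)) := h4
  rw [h5]
  rfl

/-- the Hessian vanishes on the Hamiltonian fields -/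
lemma hess_field [T2Space M] {β : (x : M) → TangentSpace 𝓘(ℝ, E) x →L[ℝ] ℝ}
    {R : (x : M) → TangentSpace 𝓘(ℝ, E) x} (h : Com β R f) {ℓ : W →L[ℝ] ℝ} {x : M}
    (hc : ∀ u : E, ℓ (D (E := E) (E' := W) f x u) = 0) (i : Idx W) (v : E) :
    hess (fun y => ℓ (f y)) x (h.vH i x) v = 0 := by
  rw [hess_eq h.smooth]
  obtain ⟨k, V, hk⟩ := exists_hat (E := E) x
  set c := chartAt E x with hcd
  set F := FF (E := E) f x with hF
  have hy : c x ∈ c.target := c.map_source (mem_chart_source E x)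
  have hsm : ContDiffOn ℝ ∞ F c.target := smooth_FF h.smooth x
  have hsD : ContDiffOn ℝ ∞ (fderiv ℝ F) c.target := hsm.fderiv_of_isOpen c.open_target (by simp)
  have h1 : ContDiffAt ℝ ∞ F (c x) := hsm.contDiffAt (c.open_target.mem_nhds hy)
  have h2 : IsSymmSndFDerivAt ℝ F (c x) := h1.isSymmSndFDerivAt (by
    have : (2 : WithTop ℕ∞) ≤ ∞ := by
      show ((2 : ℕ∞) : WithTop ℕ∞) ≤ ((⊤ : ℕ∞) : WithTop ℕ∞)
      exact WithTop.coe_le_coe.2 le_top
    simpa using this)
  have h3 : fderiv ℝ (fderiv ℝ F) (c x) (h.vH i x) v = fderiv ℝ (fderiv ℝ F) (c x) v (h.vH i x) :=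
    h2 _ _
  rw [h3]
  -- the field in the chart
  have hX : ContDiffOn ℝ ∞ (XX h x k i) c.target := hk.smooth_push (h.smooth_H i)
  have hX' : HasFDerivAt (XX h x k i) (fderiv ℝ (XX h x k i) (c x)) (c x) :=
    ((hX.contDiffAt (c.open_target.mem_nhds hy)).differentiableAt (by simp)).hasFDerivAt
  have hD' : HasFDerivAt (fderiv ℝ F) (fderiv ℝ (fderiv ℝ F) (c x)) (c x) :=
    ((hsD.contDiffAt (c.open_target.mem_nhds hy)).differentiableAt (by simp)).hasFDerivAt
  have h4 := hD'.clm_apply hX'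
  have h5 : (fun y => fderiv ℝ F y (XX h x k i y)) =ᶠ[𝓝 (c x)] fun _ => 0 := by
    have h6 : c.symm ⁻¹' V ∈ 𝓝 (c x) := by
      apply (c.symm.continuousAt (by simpa using hy)).preimage_mem_nhds
      rw [c.left_inv (mem_chart_source E x)]
      exact hk.opn.mem_nhds hk.mem
    filter_upwards [h6, c.open_target.mem_nhds hy] with y hy1 hy2
    have h7 := hk.DW_eq h.smooth (x := c.symm y) hy1 (h.H i (c.symm y))
    rw [h.ker_H, ← hcd, c.right_inv hy2] at h7
    exact h7.symm
  have h6 := (hasFDerivAt_const (𝕜 := ℝ) (0 : W) (c x)).congr_of_eventuallyEq h5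
  have h7 := DFunLike.congr_fun (h4.unique h6) v
  simp only [_root_.add_apply, ContinuousLinearMap.comp_apply,
    ContinuousLinearMap.flip_apply, _root_.zero_apply] at h7
  have h8 : XX h x k i (c x) = h.vH i x := XX_at₀ h hk i
  rw [h8] at h7
  have h9 := congrArg ℓ h7
  rw [map_add, map_zero] at h9
  have h10 : ℓ (fderiv ℝ F (c x) (fderiv ℝ (XX h x k i) (c x) v)) = 0 := by
    have h11 : D (E := E) (E' := W) f x (fderiv ℝ (XX h x k i) (c x) v) =
      fderiv ℝ F (c x) (fderiv ℝ (XX h x k i) (c x) v) := DW_at₀ h hk _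
    rw [← h11]
    exact hc _
  rw [h10, zero_add] at h9
  exact h9

lemma H_mem [T2Space M] {β : (x : M) → TangentSpace 𝓘(ℝ, E) x →L[ℝ] ℝ}
    {R : (x : M) → TangentSpace 𝓘(ℝ, E) x} (h : Com β R f) {ℓ : W →L[ℝ] ℝ} {x : M}
    (hc : ∀ u : E, ℓ (D (E := E) (E' := W) f x u) = 0) (i : Idx W) :
    h.vH i x ∈ hessKer E f ℓ x :=
  ⟨h.ker_H i x, fun v _ => hess_field h hc i v⟩

lemma R_mem [T2Space M] {β : (x : M) → TangentSpace 𝓘(ℝ, E) x →L[ℝ] ℝ}
    {R : (x : M) → TangentSpace 𝓘(ℝ, E) x} (h : Com β R f) {ℓ : W →L[ℝ] ℝ} {x : M}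
    (hc : ∀ u : E, ℓ (D (E := E) (E' := W) f x u) = 0) :
    vR R x ∈ hessKer E f ℓ x := by
  have h1 : h.vH (0, 1) x = vR R x := h.H_reeb x
  rw [← h1]
  exact H_mem h hc _

lemma mem_hessKer (ℓ : W →L[ℝ] ℝ) (x : M) (u : E) : u ∈ hessKer E f ℓ x ↔
    (D (E := E) (E' := W) f x u = 0 ∧ ∀ v : E, D (E := E) (E' := W) f x v = 0 →
    hess (fun y => ℓ (f y)) x u v = 0) := Iff.rfl

/-- nondegeneracy at a point of rank one, working form -/
lemma nd_of [T2Space M] {β : (x : M) → TangentSpace 𝓘(ℝ, E) x →L[ℝ] ℝ}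
    {R : (x : M) → TangentSpace 𝓘(ℝ, E) x} (h : Com β R f) {ℓ : W →L[ℝ] ℝ} {x : M}
    (hc : ∀ u : E, ℓ (D (E := E) (E' := W) f x u) = 0)
    (hk : Module.finrank ℝ (hessKer E f ℓ x) ≤ 2) {a : W} (ha : Dir E f x a)
    (hne : ∃ v : TangentSpace 𝓘(ℝ, E) x, DW f x v ≠ 0) : Nd h x a ℓ := by
  obtain ⟨k, V, hkk⟩ := exists_hat (E := E) x
  obtain ⟨v, hv⟩ := hne
  have hv' : (inner ℝ a (DW f x v) : ℝ) ≠ 0 := by
    intro h0
    have h1 := ha.2 v
    rw [h0, zero_smul] at h1
    exact hv h1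
  have hli : LinearIndependent ℝ ![vR R x, h.vH (zi a) x] := by
    rw [LinearIndependent.pair_iff]
    intro s t hst
    exact indep_RH h hkk hv' s t hst
  have hfr : Module.finrank ℝ (Submodule.span ℝ (range ![vR R x, h.vH (zi a) x])) = 2 := by
    rw [finrank_span_eq_card hli]
    rfl
  have hle : Submodule.span ℝ (range ![vR R x, h.vH (zi a) x]) ≤ hessKer E f ℓ x := by
    rw [Submodule.span_le]
    rintro _ ⟨i, rfl⟩
    fin_cases i
    · exact R_mem h hc
    · exact H_mem h hc _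
  have heq : Submodule.span ℝ (range ![vR R x, h.vH (zi a) x]) = hessKer E f ℓ x :=
    Submodule.eq_of_le_of_finrank_le hle (by rw [hfr]; exact hk)
  have key : ∀ u : E, u ∈ hessKer E f ℓ x → ∃ s t : ℝ, u = s • vR R x + t • h.vH (zi a) x := by
    intro u hu
    rw [← heq, Matrix.range_cons, Matrix.range_cons, Matrix.range_empty, union_empty] at hu
    have h2 : u ∈ Submodule.span ℝ {vR R x, h.vH (zi a) x} := hu
    obtain ⟨s, t, hst⟩ := Submodule.mem_span_pair.1 h2
    exact ⟨s, t, hst.symm⟩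
  refine ⟨hc, fun u hu hu2 => key u ⟨hu, fun v' hv' => ?_⟩⟩
  rw [hess_eq h.smooth]
  exact hu2 v' hv'

/-- **rank one** -/
theorem infinitely_many [T2Space M] [CompactSpace M] (hα : WStmt.IsContact α)
    (hR : WStmt.IsReeb α R) (hf : Commuting α R f) {S : Set M} (hSc : IsClosed S)
    (hSne : S.Nonempty) (hS : ∀ x ∈ S, ∀ᶠ y in 𝓝 x, rank E f y ≤ 1 → y ∈ S)
    (hS1 : ∀ x ∈ S, rank E f x = 1) (hnd : ∀ x ∈ S, Nondegenerate E f x) :
    {w : W | ∃ T : ℝ, ¬ {O : Set M | (∃ c : ℝ → M, IsPeriodicOrbit R c T ∧ O = range c) ∧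
      O ⊆ S ∩ f ⁻¹' {w}}.Countable}.Infinite := by
  have h := hf.com hα hR
  have hne : ∀ x ∈ S, ∃ v : TangentSpace 𝓘(ℝ, E) x, DW f x v ≠ 0 := by
    intro x hx
    by_contra hcon
    push Not at hcon
    have h1 := hS1 x hx
    unfold rank at h1
    have h2 : LinearMap.range (D (E := E) (E' := W) f x : E →ₗ[ℝ] W) = ⊥ := by
      rw [LinearMap.range_eq_bot]
      exact LinearMap.ext fun u => hcon u
    rw [h2, finrank_bot] at h1
    exact zero_ne_one h1
  refine (main_aux h hSc hSne ?_ hne ?_).mono ?_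
  · intro x hx
    filter_upwards [hS x hx] with y hy
    rw [← rank_le_one]
    exact ⟨fun h1 => (hS1 y h1).le, hy⟩
  · intro x hx a ha
    obtain ⟨ℓ, hℓ1, hℓ2⟩ := hnd x hx
    rw [hS1 x hx] at hℓ2
    exact ⟨ℓ, nd_of h hℓ1 hℓ2 ha (hne x hx)⟩
  · rintro w ⟨T, hT, h1⟩
    refine ⟨T, fun h2 => h1 (h2.mono ?_)⟩
    rintro O ⟨⟨c, hc1, hc2, hc3⟩, hO⟩
    exact ⟨⟨c, ⟨hT, hc1, hc2⟩, hc3⟩, hO⟩

/-- **rank zero** -/
theorem periodic_of_rank_zero [T2Space M] [CompactSpace M] (hα : WStmt.IsContact α)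
    (hR : WStmt.IsReeb α R) (hf : Commuting α R f) {x : M} (hx : rank E f x = 0)
    (hnd : Nondegenerate E f x) : ∃ (c : ℝ → M) (T : ℝ), IsPeriodicOrbit R c T ∧ c 0 = x := by
  have h := hf.com hα hR
  have hD : ∀ u : E, D (E := E) (E' := W) f x u = 0 := by
    intro u
    have h1 : LinearMap.range (D (E := E) (E' := W) f x : E →ₗ[ℝ] W) = ⊥ :=
      Submodule.finrank_eq_zero.1 hx
    rw [LinearMap.range_eq_bot] at h1
    exact DFunLike.congr_fun h1 u
  obtain ⟨ℓ, hℓ1, hℓ2⟩ := hnd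
  rw [hx, add_zero] at hℓ2
  have hdl : ∀ (y : M) (u : E), D (E := E) (E' := ℝ) (fun y => ℓ (f y)) y u =
      ℓ (D (E := E) (E' := W) f y u) := by
    intro y u
    have h2 := HasMFDerivAt.comp y (g := ℓ) (f := f) (ℓ.hasFDerivAt (x := f y)).hasMFDerivAt
      ((hf.smooth y).mdifferentiableAt (by simp)).hasMFDerivAt
    exact DFunLike.congr_fun h2.mfderiv u
  refine Pool.Agent.X167.W.exists_periodic_of_crit α hα R hR (fun y => ℓ (f y))
    (ℓ.contDiff.contMDiff.comp hf.smooth) ?_ x ?_ ?_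
  · intro y
    rw [hdl, hf.first, map_zero]
  · intro u
    rw [hdl]
    exact hℓ1 u
  · intro u hu hu2
    have hRm : R x ∈ hessKer E f ℓ x := R_mem h hℓ1
    have hum : u ∈ hessKer E f ℓ x := ⟨hD u, fun v _ => hu2 v⟩
    have hR0 : R x ≠ 0 := by
      intro h0
      have h1 := hR.unit x
      rw [h0] at h1
      have h2 : ev (α x) (0 : E) = 0 := map_zero (show E →L[ℝ] ℝ from α x)
      rw [h2] at h1
      exact zero_ne_one h1
    have heq : Submodule.span ℝ {R x} = hessKer E f ℓ x := by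
      apply Submodule.eq_of_le_of_finrank_le
      · rw [Submodule.span_le, singleton_subset_iff]
        exact hRm
      · rw [finrank_span_singleton hR0]
        exact hℓ2
    rw [← heq, Submodule.mem_span_singleton] at hum
    obtain ⟨s, rfl⟩ := hum
    have h1 : ev (α x) (s • R x) = s * ev (α x) (R x) := by
      have h2 := map_smul (show E →L[ℝ] ℝ from α x) s (R x)
      exact h2
    rw [h1, hR.unit, mul_one] at hu
    rw [hu, zero_smul]

/-- a closed orbit through a point of `S` -/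
theorem exists_periodic [T2Space M] [CompactSpace M] (hα : WStmt.IsContact α)
    (hR : WStmt.IsReeb α R) (hf : Commuting α R f) {S : Set M} (hSc : IsClosed S)
    (hSne : S.Nonempty) (hS : ∀ x ∈ S, ∀ᶠ y in 𝓝 x, rank E f y ≤ 1 → y ∈ S)
    (hS1 : ∀ x ∈ S, rank E f x ≤ 1) (hnd : ∀ x ∈ S, Nondegenerate E f x) :
    ∃ (c : ℝ → M) (T : ℝ), IsPeriodicOrbit R c T ∧ c 0 ∈ S := by
  by_cases h0 : ∃ x ∈ S, rank E f x = 0
  · obtain ⟨x, hx, hx0⟩ := h0
    obtain ⟨c, T, h1, h2⟩ := periodic_of_rank_zero hα hR hf hx0 (hnd x hx)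
    exact ⟨c, T, h1, by rw [h2]; exact hx⟩
  · push Not at h0
    have h1 := infinitely_many hα hR hf hSc hSne hS
      (fun x hx => by have := hS1 x hx; have := h0 x hx; omega) hnd
    obtain ⟨w, T, hT⟩ := h1.nonempty
    have h2 : {O : Set M | (∃ c : ℝ → M, IsPeriodicOrbit R c T ∧ O = range c) ∧
      O ⊆ S ∩ f ⁻¹' {w}}.Nonempty := by
      by_contra hcon
      rw [not_nonempty_iff_eq_empty] at hcon
      rw [hcon] at hT
      exact hT countable_empty
    obtain ⟨O, ⟨c, hc, rfl⟩, hO⟩ := h2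
    exact ⟨c, T, hc, (hO ⟨0, rfl⟩).1⟩

/-- **at most two functions** -/
theorem exists_periodic_two [T2Space M] [CompactSpace M] [Nonempty M] (hα : WStmt.IsContact α)
    (hR : WStmt.IsReeb α R) (hf : Commuting α R f) (hW : Module.finrank ℝ W ≤ 2)
    (hnd : ∀ x, rank E f x ≤ 1 → Nondegenerate E f x) :
    ∃ (c : ℝ → M) (T : ℝ), IsPeriodicOrbit R c T ∧ rank E f (c 0) ≤ 1 := by
  by_cases h0 : ∃ x : M, rank E f x = 0
  · obtain ⟨x, hx0⟩ := h0
    obtain ⟨c, T, h1, h2⟩ := periodic_of_rank_zero hα hR hf hx0 (hnd x (by omega))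
    exact ⟨c, T, h1, by rw [h2]; omega⟩
  push Not at h0
  have hnt : Nontrivial W := by
    by_contra hcon
    rw [not_nontrivial_iff_subsingleton] at hcon
    obtain ⟨x⟩ := ‹Nonempty M›
    apply h0 x
    unfold rank
    rw [Submodule.finrank_eq_zero, LinearMap.range_eq_bot]
    exact LinearMap.ext fun u => Subsingleton.elim _ _
  obtain ⟨b, hb⟩ := exists_norm_eq W zero_le_one
  have hne : ∀ x : M, ∃ v : TangentSpace 𝓘(ℝ, E) x, DW f x v ≠ 0 := by
    intro x
    by_contra hcon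
    push Not at hcon
    apply h0 x
    unfold rank
    rw [Submodule.finrank_eq_zero, LinearMap.range_eq_bot]
    exact LinearMap.ext fun u => hcon u
  have hrk : {x : M | rank E f x ≤ 1} = Prod.fst '' (PP E f (univ : Set M)) := by
    ext x
    rw [mem_ofPred_eq, rank_le_one]
    constructor
    · intro hx
      obtain ⟨a, ha⟩ := exists_dir hx (hne x)
      exact ⟨(x, a), ⟨mem_univ _, ha⟩, rfl⟩
    · rintro ⟨⟨x, a⟩, ⟨-, ha⟩, rfl⟩
      exact ⟨a, fun u => ⟨_, ha.2 u⟩⟩
  have hcl : IsClosed {x : M | rank E f x ≤ 1} := by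
    rw [hrk]
    exact ((compact_PP hf.smooth isClosed_univ).image continuous_fst).isClosed
  have hnonempty : {x : M | rank E f x ≤ 1}.Nonempty := by
    have hcont : Continuous fun x => (inner ℝ b (f x) : ℝ) :=
      continuous_const.inner hf.smooth.continuous
    obtain ⟨x, -, hx⟩ := isCompact_univ.exists_isMaxOn univ_nonempty hcont.continuousOn
    refine ⟨x, ?_⟩
    have hmax : IsLocalMax (fun x => (inner ℝ b (f x) : ℝ)) x :=
      Filter.Eventually.of_forall fun y => hx (mem_univ y)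
    have hcrit : ∀ u : E, (inner ℝ b (D (E := E) (E' := W) f x u) : ℝ) = 0 := by
      -- in the chart
      have hy : chartAt E x x ∈ (chartAt E x).target :=
        (chartAt E x).map_source (mem_chart_source E x)
      have h1 : IsLocalMax (fun y => (innerSL ℝ b) (FF (E := E) f x y)) (chartAt E x x) := by
        refine Filter.Eventually.of_forall fun y => ?_
        show (inner ℝ b (f ((chartAt E x).symm y)) : ℝ) ≤
          inner ℝ b (f ((chartAt E x).symm (chartAt E x x)))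
        rw [(chartAt E x).left_inv (mem_chart_source E x)]
        exact hx (mem_univ _)
      have h2 : HasFDerivAt (FF (E := E) f x) (fderiv ℝ (FF (E := E) f x) (chartAt E x x))
          (chartAt E x x) :=
        (((smooth_FF hf.smooth x).contDiffAt ((chartAt E x).open_target.mem_nhds
          hy)).differentiableAt (by simp)).hasFDerivAt
      have h3 := h1.hasFDerivAt_eq_zero ((innerSL ℝ b).hasFDerivAt.comp (chartAt E x x) h2)
      intro u
      obtain ⟨k, V, hk⟩ := exists_hat (E := E) x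
      have h4 : D (E := E) (E' := W) f x u = fderiv ℝ (FF (E := E) f x) (chartAt E x x) u :=
        DW_at₀ (hf.com hα hR) hk u
      rw [h4]
      exact DFunLike.congr_fun h3 u
    have hle : LinearMap.range (D (E := E) (E' := W) f x : E →ₗ[ℝ] W) ≤
        (Submodule.span ℝ {b})ᗮ := by
      rintro _ ⟨u, rfl⟩
      rw [Submodule.mem_orthogonal_singleton_iff_inner_right]
      exact hcrit u
    have h1 := Submodule.finrank_mono hle
    have h2 := Submodule.finrank_add_finrank_orthogonal (𝕜 := ℝ) (E := W) (Submodule.span ℝ {b})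
    have hb0 : b ≠ 0 := by
      intro h3
      rw [h3, norm_zero] at hb
      exact zero_ne_one hb
    rw [finrank_span_singleton hb0] at h2
    show rank E f x ≤ 1
    unfold rank
    omega
  obtain ⟨c, T, h1, h2⟩ := exists_periodic hα hR hf hcl hnonempty
    (fun x _ => Filter.Eventually.of_forall fun y hy => hy) (fun x hx => hx) (fun x hx => hnd x hx)
  exact ⟨c, T, h1, h2⟩

end Pool.Agent.H904.IN
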