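import Pool.Agent.H904.IN.Cover
import Pool.Agent.H904.SF.Main

/-! # The family of surfaces on the double cover -/

set_option autoImplicit false
set_option linter.unusedSectionVars false

open scoped Topology ContDiff Manifold
open Set Filter Bundle Pool.Agent.Helper186 Pool.Agent.H826R2

noncomputable section

namespace Pool.Agent.H904.IN

open Pool.Agent.N287.WF (DW)

universe u u' v v' w

variable {E : Type u} [NormedAddCommGroup E] [NormedSpace ℝ E] [FiniteDimensional ℝ E]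
  {M : Type v} [TopologicalSpace M] [ChartedSpace E M] [IsManifold 𝓘(ℝ, E) ∞ M]
  {W : Type w} [NormedAddCommGroup W] [InnerProductSpace ℝ W] [FiniteDimensional ℝ W]
  {E' : Type u'} [NormedAddCommGroup E'] [NormedSpace ℝ E'] [FiniteDimensional ℝ E']
  {P : Type v'} [TopologicalSpace P] [ChartedSpace E' P] [IsManifold 𝓘(ℝ, E') ∞ P]

/-- the derivative of a map between manifolds -/
def Dm (E : Type u) [NormedAddCommGroup E] [NormedSpace ℝ E]
    (E' : Type u') [NormedAddCommGroup E'] [NormedSpace ℝ E']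
    {M : Type v} [TopologicalSpace M] [ChartedSpace E M]
    {P : Type v'} [TopologicalSpace P] [ChartedSpace E' P]
    (q : P → M) (p : P) : E' →L[ℝ] E := mfderiv 𝓘(ℝ, E') 𝓘(ℝ, E) q p

/-- the exterior derivative as a bilinear form -/
def dL (β : (x : M) → TangentSpace 𝓘(ℝ, E) x →L[ℝ] ℝ) (x : M) : E →L[ℝ] E →L[ℝ] ℝ :=
  extDerL 𝓘(ℝ, E) β x

/-- the covector on the model space -/
def vb (β : (x : M) → TangentSpace 𝓘(ℝ, E) x →L[ℝ] ℝ) (x : M) : E →L[ℝ] ℝ := β x

/-- the vector in the model space -/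
def vR (R : (x : M) → TangentSpace 𝓘(ℝ, E) x) (x : M) : E := R x

/-- the derivative of `f` -/
def Df (E : Type u) [NormedAddCommGroup E] [NormedSpace ℝ E]
    {M : Type v} [TopologicalSpace M] [ChartedSpace E M] (f : M → W) (x : M) : E →L[ℝ] W :=
  mfderiv 𝓘(ℝ, E) 𝓘(ℝ, W) f x

variable {β : (x : M) → TangentSpace 𝓘(ℝ, E) x →L[ℝ] ℝ}
  {R : (x : M) → TangentSpace 𝓘(ℝ, E) x} {f : M → W}

lemma dL_anti (x : M) (u v : E) : dL β x u v = - dL β x v u := by
  have h1 : dL β x u v = extDer 𝓘(ℝ, E) β x u v := extDerL_apply ..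
  have h2 : dL β x v u = extDer 𝓘(ℝ, E) β x v u := extDerL_apply ..
  rw [h1, h2]
  exact Wein.extDer_antisymm x u v

/-- the Hamiltonian field in the model space -/
def Com.vH (h : Com β R f) (i : Idx W) (x : M) : E := h.H i x

lemma Com.dL_R (h : Com β R f) (x : M) (v : E) : dL β x (vR R x) v = 0 := by
  have h1 : dL β x (vR R x) v = extDer 𝓘(ℝ, E) β x (R x) v := extDerL_apply ..
  rw [h1]
  exact h.cd.reeb.kernel x v

lemma Com.dL_H (h : Com β R f) (i : Idx W) (x : M) (v : E) :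
    dL β x (h.vH i x) v = - i.1 (Df E f x v) := by
  have h1 : dL β x (h.vH i x) v = extDer 𝓘(ℝ, E) β x (h.H i x) v := extDerL_apply ..
  rw [h1]
  exact h.d_H i x v

/-- The data on the double cover. -/
structure CovData (h : Com β R f) (q : P → M) (a : P → W) : Prop where
  smoothq : ContMDiff 𝓘(ℝ, E') 𝓘(ℝ, E) ∞ q
  smootha : ContMDiff 𝓘(ℝ, E') 𝓘(ℝ, W) ∞ a
  inj : ∀ (p : P) (u : E'), Dm E E' q p u = 0 → u = 0
  reeb : ∀ p : P, ∃ u : E', Dm E E' q p u = vR R (q p)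
  ham : ∀ p : P, ∃ u : E', Dm E E' q p u = h.vH (zi (a p)) (q p)
  nz : ∀ p : P, ∃ u : E', (inner ℝ (a p) (Df E f (q p) (Dm E E' q p u)) : ℝ) ≠ 0
  ker : ∀ (p : P) (u : E'), Df E f (q p) (Dm E E' q p u) = 0 →
    ∃ s t : ℝ, Dm E E' q p u = s • vR R (q p) + t • h.vH (zi (a p)) (q p)
  dir : ∀ p : P, Dir E f (q p) (a p)

namespace CovData

variable {h : Com β R f} {q : P → M} {a : P → W} (d : CovData (E' := E') h q a)

include d

lemma dir' (p : P) (u : E) : Df E f (q p) u = (inner ℝ (a p) (Df E f (q p) u) : ℝ) • a p :=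
  (d.dir p).2 u

lemma zero_of_inner {p : P} {u : E} (hu : (inner ℝ (a p) (Df E f (q p) u) : ℝ) = 0) :
    Df E f (q p) u = 0 := by
  rw [d.dir', hu, zero_smul]

lemma zi_apply (p : P) (w : W) : (zi (a p)).1 w = (inner ℝ (a p) w : ℝ) := rfl

/-- the values of the exterior derivative on the fields -/
lemma dL_pull (p : P) (u v : E') : dL (pullForm 𝓘(ℝ, E) 𝓘(ℝ, E') q β) p u v =
    dL β (q p) (Dm E E' q p u) (Dm E E' q p v) := by
  have h1 : dL (pullForm 𝓘(ℝ, E) 𝓘(ℝ, E') q β) p u v =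
    extDer 𝓘(ℝ, E') (pullForm 𝓘(ℝ, E) 𝓘(ℝ, E') q β) p u v := extDerL_apply ..
  have h2 : dL β (q p) (Dm E E' q p u) (Dm E E' q p v) =
      extDer 𝓘(ℝ, E) β (q p) (mfderiv 𝓘(ℝ, E') 𝓘(ℝ, E) q p u) (mfderiv 𝓘(ℝ, E') 𝓘(ℝ, E) q p v) :=
    extDerL_apply ..
  rw [h1, h2]
  exact extDer_pull (J := 𝓘(ℝ, E')) d.smoothq h.cd.contact.smooth p u v

/-- nondegeneracy of the pull back -/
lemma nondeg {p : P} {u : E'} (hu : vb β (q p) (Dm E E' q p u) = 0)
    (hd : ∀ v : E', dL β (q p) (Dm E E' q p u) (Dm E E' q p v) = 0) : u = 0 := by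
  obtain ⟨z, hz⟩ := d.ham p
  have h1 := hd z
  rw [dL_anti, hz, h.dL_H, neg_neg, d.zi_apply] at h1
  obtain ⟨s, t, hst⟩ := d.ker p u (d.zero_of_inner h1)
  obtain ⟨y, hy⟩ := d.nz p
  have h2 := hd y
  rw [hst, map_add, map_smul, map_smul, _root_.add_apply, _root_.smul_apply, _root_.smul_apply,
    h.dL_R, smul_zero, zero_add, h.dL_H, d.zi_apply, smul_eq_mul] at h2
  have ht : t = 0 := by
    rcases mul_eq_zero.1 h2 with h3 | h3
    · exact h3
    · exact absurd (neg_eq_zero.1 h3) hy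
  rw [ht, zero_smul, add_zero] at hst
  have hs : s = 0 := by
    rw [hst, map_smul, smul_eq_mul] at hu
    have h3 : vb β (q p) (vR R (q p)) = 1 := h.cd.reeb.unit (q p)
    rw [h3, mul_one] at hu
    exact hu
  rw [hs, zero_smul] at hst
  exact d.inj p u hst

/-- **The family of surfaces** -/
theorem exists_fam : ∃ (RP Z : (p : P) → TangentSpace 𝓘(ℝ, E') p),
    SF.Fam β R q RP Z (fun p => f (q p)) := by
  have hβP := smoothForm_pull (J := 𝓘(ℝ, E')) d.smoothq h.cd.contact.smooth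
  choose RP hRP using d.reeb
  set βP := pullForm 𝓘(ℝ, E) 𝓘(ℝ, E') q β with hβP'
  have hβa : ∀ (p : P) (u : E'), vb βP p u = vb β (q p) (Dm E E' q p u) :=
    fun p u => rfl
  have hunit : ∀ p, vb βP p (RP p) = 1 := by
    intro p
    rw [hβa, hRP]
    exact h.cd.reeb.unit (q p)
  have hkerP : ∀ (p : P) (v : E'), dL βP p (RP p) v = 0 := by
    intro p v
    rw [hβP', d.dL_pull, hRP]
    exact h.dL_R _ _
  have hext : ∀ (p : P) (u v : E'), extDer 𝓘(ℝ, E') βP p u v = dL βP p u v := fun p u v =>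
    (extDerL_apply ..).symm
  have hnd : ∀ (p : P) (u : E'), vb βP p u = 0 → (∀ v : E', vb βP p v = 0 → dL βP p u v = 0) →
      u = 0 := by
    intro p u hu hd'
    refine d.nondeg (p := p) (u := u) hu fun v => ?_
    rw [← d.dL_pull]
    set s : ℝ := vb βP p v with hs
    have h1 : dL βP p u (v - s • RP p) = 0 := by
      apply hd'
      rw [map_sub, map_smul, hunit, ← hs, smul_eq_mul, mul_one, sub_self]
    rw [map_sub, map_smul, dL_anti p u (RP p), hkerP, neg_zero, smul_zero, sub_zero] at h1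
    exact h1
  have hc : Wein.CD βP (fun p => (RP p : TangentSpace 𝓘(ℝ, E') p)) := by
    refine ⟨⟨hβP, ?_, ?_⟩, ⟨hunit, ?_⟩⟩
    · intro p hp
      have h1 : vb βP p (RP p) = 1 := hunit p
      have h2 : vb βP p = 0 := hp
      rw [h2] at h1
      exact zero_ne_one h1
    · intro p u hu hd
      exact hnd p u hu fun v hv => by
        rw [← hext]; exact hd v hv
    · intro p v
      rw [hext]
      exact hkerP p v
  have hRs : ContMDiff 𝓘(ℝ, E') 𝓘(ℝ, E').tangent ∞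
      (fun p => (⟨p, RP p⟩ : TangentBundle 𝓘(ℝ, E') P)) := Pool.Agent.N284.WF.smooth_R hc
  have hfs : ContMDiff 𝓘(ℝ, E') 𝓘(ℝ, W) ∞ (fun p => f (q p)) := h.smooth.comp d.smoothq
  have hDf : ∀ (p : P) (u : E'), (DW (fun p => f (q p)) p : E' →L[ℝ] W) u =
      Df E f (q p) (Dm E E' q p u) := by
    intro p u
    have h4 : mfderiv 𝓘(ℝ, E') 𝓘(ℝ, W) (f ∘ q) p =
        (mfderiv 𝓘(ℝ, E) 𝓘(ℝ, W) f (q p)).comp (mfderiv 𝓘(ℝ, E') 𝓘(ℝ, E) q p) :=
      mfderiv_comp _ (h.smooth.mdifferentiableAt (by simp)) (d.smoothq.mdifferentiableAt (by simp))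
    exact DFunLike.congr_fun h4 u
  -- the field `Z`
  have hZex : ∀ p : P, ∃ z : TangentSpace 𝓘(ℝ, E') p, ∀ v : TangentSpace 𝓘(ℝ, E') p,
      Wein.HB βP p z v = - (inner ℝ (a p) (DW (fun p => f (q p)) p v) : ℝ) := by
    intro p
    obtain ⟨z, hz⟩ := Wein.exists_HB hc.contact hc.reeb p
      (-((innerSL ℝ (a p)).comp (DW (fun p => f (q p)) p : E' →L[ℝ] W)))
    exact ⟨z, fun v => hz v⟩
  choose Z hZ using hZex
  have hZs : ContMDiff 𝓘(ℝ, E') 𝓘(ℝ, E').tangent ∞
      (fun p => (⟨p, Z p⟩ : TangentBundle 𝓘(ℝ, E') P)) := by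
    intro p
    refine contMDiffAt_of_pairing (J := 𝓘(ℝ, E')) (f := fun x : P => x) contMDiffAt_id
      (Wein.smoothBilin_HB hβP p) (Wein.HB_nondeg hc.contact hc.reeb p) ?_
    intro v hv
    have h2 := Pool.Agent.N284.WF.smooth_DW hfs hv
    have h3 : ContDiff ℝ ∞ (fun p : W × W => (inner ℝ p.1 p.2 : ℝ)) := contDiff_inner
    have h4 : ContMDiffAt 𝓘(ℝ, E') 𝓘(ℝ, ℝ) ∞
        (fun p => (inner ℝ (a p) (DW (fun p => f (q p)) p (v p)) : ℝ)) p :=
      h3.contMDiff.contMDiffAt.comp p ((d.smootha p).prodMk_space h2)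
    refine h4.neg.congr_of_eventuallyEq (Filter.Eventually.of_forall fun p => ?_)
    exact hZ p (v p)
  let ZE : P → E' := Z
  have hZβ : ∀ p, vb βP p (ZE p) = 0 := by
    intro p
    have h1 := hZ p (RP p)
    have h2 : (DW (fun p => f (q p)) p : E' →L[ℝ] W) (RP p) = 0 := by
      rw [hDf, hRP]
      exact h.first (q p)
    have h3 : Wein.HB βP p (Z p) (RP p) = vb βP p (ZE p) * vb βP p (RP p) +
        dL βP p (ZE p) (RP p) := by
      rw [← hext]; exact Wein.HB_apply p _ _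
    rw [h3, hunit, mul_one, dL_anti, hkerP, neg_zero, add_zero] at h1
    rw [h1]
    have h4 : (inner ℝ (a p) ((DW (fun p => f (q p)) p : E' →L[ℝ] W) (RP p)) : ℝ) = 0 := by
      rw [h2, inner_zero_right]
    exact neg_eq_zero.2 h4
  have hZd : ∀ (p : P) (v : E'), dL β (q p) (Dm E E' q p (ZE p)) (Dm E E' q p v) =
      - (inner ℝ (a p) (Df E f (q p) (Dm E E' q p v)) : ℝ) := by
    intro p v
    have h3 : Wein.HB βP p (Z p) v = vb βP p (ZE p) * vb βP p v +
        dL βP p (ZE p) v := by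
      rw [← hext]; exact Wein.HB_apply p _ _
    rw [hZβ, zero_mul, zero_add, d.dL_pull] at h3
    rw [← h3, ← hDf]
    exact hZ p v
  have hZk : ∀ p : P, Df E f (q p) (Dm E E' q p (ZE p)) = 0 := by
    intro p
    obtain ⟨z, hz⟩ := d.ham p
    have h1 := hZd p z
    have h2 : Df E f (q p) (Dm E E' q p z) = 0 := by
      rw [hz]
      exact h.ker_H _ _
    rw [h2, inner_zero_right, neg_zero, dL_anti, hz, h.dL_H, neg_neg, d.zi_apply] at h1
    exact d.zero_of_inner h1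
  have hk1 : ∀ (p : P) (u : E'), Df E f (q p) (Dm E E' q p u) = 0 →
      ∃ s t : ℝ, u = s • RP p + t • ZE p := by
    intro p u hu'
    obtain ⟨s, t, hst⟩ := d.ker p u hu'
    obtain ⟨s', t', hst'⟩ := d.ker p (ZE p) (hZk p)
    have ht' : t' ≠ 0 := by
      intro h0
      obtain ⟨y, hy⟩ := d.nz p
      have h1 := hZd p y
      rw [hst', h0, zero_smul, add_zero, map_smul, _root_.smul_apply, h.dL_R, smul_zero] at h1
      exact hy (neg_eq_zero.1 h1.symm)
    refine ⟨s - t * t'⁻¹ * s', t * t'⁻¹, ?_⟩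
    have h1 : u - ((s - t * t'⁻¹ * s') • RP p + (t * t'⁻¹) • ZE p) = 0 := by
      apply d.inj p
      rw [map_sub, map_add, map_smul, map_smul, hst, hst', hRP]
      have h2 : t * t'⁻¹ * t' = t := by field_simp
      have h3 : ∀ (r k : E), s • r + t • k - ((s - t * t'⁻¹ * s') • r +
          (t * t'⁻¹) • (s' • r + t' • k)) = 0 := by
        intro r k
        have h4 : (t * t'⁻¹) • (s' • r + t' • k) = (t * t'⁻¹ * s') • r + t • k := by
          rw [smul_add, smul_smul, smul_smul, h2]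
        rw [h4]
        module
      exact h3 _ _
    exact sub_eq_zero.1 h1
  refine ⟨fun p => RP p, Z, ?_⟩
  refine ⟨⟨h.cd.contact.smooth, h.smooth_R, h.cd.reeb.unit, fun x v => h.cd.reeb.kernel x v⟩,
    d.smoothq, hRs, fun p => hRP p, hfs, hZs, ?_, ?_⟩
  · intro p u
    constructor
    · intro hu
      have hu' : Df E f (q p) (Dm E E' q p u) = 0 := by
        rw [← hDf]; exact hu
      exact hk1 p u hu'
    · rintro ⟨s, t, rfl⟩
      have h1 : (DW (fun p => f (q p)) p : E' →L[ℝ] W) (s • RP p + t • ZE p) = 0 := by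
        rw [hDf, map_add, map_smul, map_smul, map_add, map_smul, map_smul, hZk, hRP]
        have h2 : Df E f (q p) (vR R (q p)) = 0 := h.first (q p)
        rw [h2, smul_zero, smul_zero, add_zero]
      exact h1
  · intro p
    obtain ⟨y, hy⟩ := d.nz p
    refine ⟨y, ?_⟩
    have h1 := hZd p y
    have h2 : dL β (q p) (Dm E E' q p (ZE p)) (Dm E E' q p y) =
      extDer 𝓘(ℝ, E) β (q p) (mfderiv 𝓘(ℝ, E') 𝓘(ℝ, E) q p (Z p))
        (mfderiv 𝓘(ℝ, E') 𝓘(ℝ, E) q p y) := extDerL_apply ..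
    rw [← h2, h1]
    exact neg_ne_zero.2 hy

end CovData

end Pool.Agent.H904.IN
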