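import Mathlib

/-! # The local structure of the singular set of commuting functions at a nondegenerate point of rank
one -/

set_option autoImplicit false
set_option linter.unusedSectionVars false

open scoped Topology ContDiff
open Set Filter

noncomputable section

namespace Pool.Agent.H904.IN

/-- injectivity is an open condition -/
lemma inj_near {T : Type*} [TopologicalSpace T] {E₁ E₂ : Type*} [NormedAddCommGroup E₁] [NormedSpace ℝ E₁]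
    [FiniteDimensional ℝ E₁] [NormedAddCommGroup E₂] [NormedSpace ℝ E₂]
    {A : T → (E₁ →L[ℝ] E₂)} {t₀ : T} (hA : ContinuousAt A t₀)
    (h : ∀ u, A t₀ u = 0 → u = 0) : ∀ᶠ t in 𝓝 t₀, ∀ u, A t u = 0 → u = 0 := by
  have hk : LinearMap.ker (A t₀ : E₁ →ₗ[ℝ] E₂) = ⊥ := by
    rw [LinearMap.ker_eq_bot']
    exact h
  obtain ⟨K, hK, hK2⟩ := LinearMap.exists_antilipschitzWith (A t₀ : E₁ →ₗ[ℝ] E₂) hk
  have h1 : ∀ᶠ t in 𝓝 t₀, ‖A t - A t₀‖ < (K : ℝ)⁻¹ := by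
    have h2 : ContinuousAt (fun t => ‖A t - A t₀‖) t₀ := (hA.sub continuousAt_const).norm
    have h3 : (fun t => ‖A t - A t₀‖) t₀ < (K : ℝ)⁻¹ := by
      simp only [sub_self, norm_zero]
      positivity
    exact h2.eventually (Iio_mem_nhds h3)
  filter_upwards [h1] with t ht u hu
  by_contra hne
  have h4 : 0 < ‖u‖ := norm_pos_iff.2 hne
  have h5 : ‖u‖ ≤ K * ‖A t₀ u‖ := by
    have := hK2.le_mul_dist u 0
    simpa [dist_eq_norm] using this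
  have h6 : ‖A t₀ u‖ ≤ ‖A t - A t₀‖ * ‖u‖ := by
    have h7 : A t₀ u = -((A t - A t₀) u) := by
      rw [_root_.sub_apply, hu, zero_sub, neg_neg]
    rw [h7, norm_neg]
    exact (A t - A t₀).le_opNorm u
  have hKpos : (0:ℝ) < K := by exact_mod_cast hK
  have h8 : ‖A t₀ u‖ < (K:ℝ)⁻¹ * ‖u‖ := lt_of_le_of_lt h6 (mul_lt_mul_of_pos_right ht h4)
  have h9 : (K:ℝ) * ‖A t₀ u‖ < ‖u‖ := by
    calc (K:ℝ) * ‖A t₀ u‖ < K * ((K:ℝ)⁻¹ * ‖u‖) := mul_lt_mul_of_pos_left h8 hKpos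
      _ = ‖u‖ := by rw [← mul_assoc, mul_inv_cancel₀ hKpos.ne', one_mul]
  linarith

variable {E : Type*} [NormedAddCommGroup E] [NormedSpace ℝ E] [FiniteDimensional ℝ E]
  {W : Type*} [NormedAddCommGroup W] [NormedSpace ℝ W] [FiniteDimensional ℝ W]

/-- The data at a point `y₀` at which the derivative of `F` has rank one: `U` is a neighbourhood,
`X i` are fields in the kernel of the derivative, `X r` and `X z` are independent at `y₀`; `l₀ ∘ F` is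
critical at `y₀`, and its Hessian has the kernel spanned by `X r` and `X z` there. -/
structure Pt {ι : Type*} (F : E → W) (U : Set E) (y₀ : E) (X : ι → E → E) (r z : ι)
    (l₀ l₁ : W →L[ℝ] ℝ) (v₀ : E) : Prop where
  opn : IsOpen U
  mem : y₀ ∈ U
  smooth : ContDiffOn ℝ ∞ F U
  smoothX : ∀ i, ContDiffOn ℝ ∞ (X i) U
  ker : ∀ i, ∀ y ∈ U, fderiv ℝ F y (X i y) = 0
  indep : ∀ a b : ℝ, a • X r y₀ + b • X z y₀ = 0 → a = 0 ∧ b = 0
  crit : ∀ u, l₀ (fderiv ℝ F y₀ u) = 0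
  rank : ∀ u, l₁ (fderiv ℝ F y₀ u) = 0 → fderiv ℝ F y₀ u = 0
  ne : ∀ y ∈ U, l₁ (fderiv ℝ F y v₀) ≠ 0
  nd : ∀ u, fderiv ℝ F y₀ u = 0 →
    (∀ v, fderiv ℝ F y₀ v = 0 → l₀ (fderiv ℝ (fderiv ℝ F) y₀ u v) = 0) →
    ∃ a b : ℝ, u = a • X r y₀ + b • X z y₀

namespace Pt

variable {ι : Type*} {F : E → W} {U : Set E} {y₀ : E} {X : ι → E → E} {r z : ι}
  {l₀ l₁ : W →L[ℝ] ℝ} {v₀ : E} (h : Pt F U y₀ X r z l₀ l₁ v₀)

include h

lemma smD : ContDiffOn ℝ ∞ (fderiv ℝ F) U := h.smooth.fderiv_of_isOpen h.opn (by simp)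

lemma dD {y : E} (hy : y ∈ U) : HasFDerivAt (fderiv ℝ F) (fderiv ℝ (fderiv ℝ F) y) y :=
  ((h.smD.contDiffAt (h.opn.mem_nhds hy)).differentiableAt (by simp)).hasFDerivAt

lemma symm {y : E} (hy : y ∈ U) (u v : E) :
    fderiv ℝ (fderiv ℝ F) y u v = fderiv ℝ (fderiv ℝ F) y v u := by
  have h1 : ContDiffAt ℝ ∞ F y := h.smooth.contDiffAt (h.opn.mem_nhds hy)
  have h2 : IsSymmSndFDerivAt ℝ F y := h1.isSymmSndFDerivAt (by
    have : (2 : WithTop ℕ∞) ≤ ∞ := by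
      show ((2 : ℕ∞) : WithTop ℕ∞) ≤ ((⊤ : ℕ∞) : WithTop ℕ∞)
      exact WithTop.coe_le_coe.2 le_top
    simpa using this)
  exact h2 u v

/-- the second derivative on the fields -/
lemma ker' {y : E} (hy : y ∈ U) (i : ι) (u : E) :
    fderiv ℝ (fderiv ℝ F) y u (X i y) + fderiv ℝ F y (fderiv ℝ (X i) y u) = 0 := by
  have h1 : HasFDerivAt (X i) (fderiv ℝ (X i) y) y :=
    (((h.smoothX i).contDiffAt (h.opn.mem_nhds hy)).differentiableAt (by simp)).hasFDerivAt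
  have h2 := (h.dD hy).clm_apply h1
  have h3 : (fun y => fderiv ℝ F y (X i y)) =ᶠ[𝓝 y] fun _ => 0 := by
    filter_upwards [h.opn.mem_nhds hy] with y' hy'
    exact h.ker i y' hy'
  have h4 := (hasFDerivAt_const (𝕜 := ℝ) (0 : W) y).congr_of_eventuallyEq h3
  have h5 := DFunLike.congr_fun (h2.unique h4) u
  simp only [_root_.add_apply, ContinuousLinearMap.comp_apply,
    ContinuousLinearMap.flip_apply, _root_.zero_apply] at h5
  rw [add_comm]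
  exact h5

omit h in
/-- the multiplier -/
def mu (F : E → W) (l₀ l₁ : W →L[ℝ] ℝ) (v₀ : E) (y : E) : ℝ :=
  l₀ (fderiv ℝ F y v₀) / l₁ (fderiv ℝ F y v₀)

omit h in
/-- the one-form `d(l₀ F) - μ d(l₁ F)` -/
def N (F : E → W) (l₀ l₁ : W →L[ℝ] ℝ) (v₀ : E) (y : E) : E →L[ℝ] ℝ :=
  l₀.comp (fderiv ℝ F y) - mu F l₀ l₁ v₀ y • l₁.comp (fderiv ℝ F y)

omit h in
lemma N_apply (y v : E) : N F l₀ l₁ v₀ y v =
    l₀ (fderiv ℝ F y v) - mu F l₀ l₁ v₀ y * l₁ (fderiv ℝ F y v) := rfl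

lemma smMu : ContDiffOn ℝ ∞ (mu F l₀ l₁ v₀) U := by
  have h1 : ContDiffOn ℝ ∞ (fun y => l₀ (fderiv ℝ F y v₀)) U :=
    l₀.contDiff.comp_contDiffOn (h.smD.clm_apply contDiffOn_const)
  have h2 : ContDiffOn ℝ ∞ (fun y => l₁ (fderiv ℝ F y v₀)) U :=
    l₁.contDiff.comp_contDiffOn (h.smD.clm_apply contDiffOn_const)
  exact h1.div h2 h.ne

lemma smN : ContDiffOn ℝ ∞ (N F l₀ l₁ v₀) U := by
  have h1 : ContDiffOn ℝ ∞ (fun y => l₀.comp (fderiv ℝ F y)) U :=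
    (ContinuousLinearMap.compL ℝ E W ℝ l₀).contDiff.comp_contDiffOn h.smD
  have h2 : ContDiffOn ℝ ∞ (fun y => l₁.comp (fderiv ℝ F y)) U :=
    (ContinuousLinearMap.compL ℝ E W ℝ l₁).contDiff.comp_contDiffOn h.smD
  exact h1.sub (h.smMu.smul h2)

lemma dMu {y : E} (hy : y ∈ U) :
    HasFDerivAt (mu F l₀ l₁ v₀) (fderiv ℝ (mu F l₀ l₁ v₀) y) y :=
  ((h.smMu.contDiffAt (h.opn.mem_nhds hy)).differentiableAt (by simp)).hasFDerivAt

lemma dN {y : E} (hy : y ∈ U) :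
    HasFDerivAt (N F l₀ l₁ v₀) (fderiv ℝ (N F l₀ l₁ v₀) y) y :=
  ((h.smN.contDiffAt (h.opn.mem_nhds hy)).differentiableAt (by simp)).hasFDerivAt

lemma dN_apply {y : E} (hy : y ∈ U) (u v : E) : fderiv ℝ (N F l₀ l₁ v₀) y u v =
    l₀ (fderiv ℝ (fderiv ℝ F) y u v) - (mu F l₀ l₁ v₀ y * l₁ (fderiv ℝ (fderiv ℝ F) y u v) +
      fderiv ℝ (mu F l₀ l₁ v₀) y u * l₁ (fderiv ℝ F y v)) := by
  have h1 : HasFDerivAt (fun y => N F l₀ l₁ v₀ y v)
      ((ContinuousLinearMap.apply ℝ ℝ v).comp (fderiv ℝ (N F l₀ l₁ v₀) y)) y :=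
    (ContinuousLinearMap.apply ℝ ℝ v).hasFDerivAt.comp y (h.dN hy)
  have h2 : HasFDerivAt (fun y => fderiv ℝ F y v)
      ((ContinuousLinearMap.apply ℝ W v).comp (fderiv ℝ (fderiv ℝ F) y)) y :=
    (ContinuousLinearMap.apply ℝ W v).hasFDerivAt.comp y (h.dD hy)
  have h3 := (l₀.hasFDerivAt.comp y h2).sub ((h.dMu hy).mul (l₁.hasFDerivAt.comp y h2))
  have h4 := DFunLike.congr_fun (h1.unique h3) u
  simp only [ContinuousLinearMap.comp_apply, ContinuousLinearMap.apply_apply,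
    _root_.sub_apply, _root_.add_apply,
    _root_.smul_apply, smul_eq_mul] at h4
  rw [h4]
  simp only [Function.comp]
  ring

lemma N_v₀ {y : E} (hy : y ∈ U) : N F l₀ l₁ v₀ y v₀ = 0 := by
  rw [N_apply]
  unfold mu
  rw [div_mul_cancel₀ _ (h.ne y hy), sub_self]

lemma dN_v₀ {y : E} (hy : y ∈ U) (u : E) : fderiv ℝ (N F l₀ l₁ v₀) y u v₀ = 0 := by
  have h1 : HasFDerivAt (fun y => N F l₀ l₁ v₀ y v₀)
      ((ContinuousLinearMap.apply ℝ ℝ v₀).comp (fderiv ℝ (N F l₀ l₁ v₀) y)) y :=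
    (ContinuousLinearMap.apply ℝ ℝ v₀).hasFDerivAt.comp y (h.dN hy)
  have h3 : (fun y => N F l₀ l₁ v₀ y v₀) =ᶠ[𝓝 y] fun _ => 0 := by
    filter_upwards [h.opn.mem_nhds hy] with y' hy'
    exact h.N_v₀ hy'
  have h4 := (hasFDerivAt_const (𝕜 := ℝ) (0 : ℝ) y).congr_of_eventuallyEq h3
  exact DFunLike.congr_fun (h1.unique h4) u

lemma N_X {y : E} (hy : y ∈ U) (i : ι) : N F l₀ l₁ v₀ y (X i y) = 0 := by
  rw [N_apply, h.ker i y hy, map_zero, map_zero, mul_zero, sub_zero]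

/-- the zero set of `N` is tangent to the fields -/
lemma tangent {y : E} (hy : y ∈ U) (hN : N F l₀ l₁ v₀ y = 0) (i : ι) :
    fderiv ℝ (N F l₀ l₁ v₀) y (X i y) = 0 := by
  have hX : ∀ u, fderiv ℝ (N F l₀ l₁ v₀) y u (X i y) = 0 := by
    intro u
    have h1 := h.ker' hy i u
    have h2 : fderiv ℝ (fderiv ℝ F) y u (X i y) = - fderiv ℝ F y (fderiv ℝ (X i) y u) :=
      eq_neg_of_add_eq_zero_left h1
    rw [h.dN_apply hy, h2, h.ker i y hy]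
    have h3 : N F l₀ l₁ v₀ y (fderiv ℝ (X i) y u) = 0 := by rw [hN]; rfl
    rw [N_apply] at h3
    simp only [map_neg, map_zero]
    linarith
  have h1 : ∀ v, fderiv ℝ (N F l₀ l₁ v₀) y (X i y) v =
      -(fderiv ℝ (mu F l₀ l₁ v₀) y (X i y) * l₁ (fderiv ℝ F y v)) := by
    intro v
    have h2 := hX v
    rw [h.dN_apply hy] at h2 ⊢
    rw [h.symm hy (X i y) v]
    rw [h.ker i y hy, map_zero] at h2
    linarith
  have h2 : fderiv ℝ (mu F l₀ l₁ v₀) y (X i y) = 0 := by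
    have h3 := h1 v₀
    rw [h.dN_v₀ hy] at h3
    have h4 : fderiv ℝ (mu F l₀ l₁ v₀) y (X i y) * l₁ (fderiv ℝ F y v₀) = 0 := by linarith
    exact (mul_eq_zero.1 h4).resolve_right (h.ne y hy)
  refine ContinuousLinearMap.ext fun v => ?_
  rw [h1, h2]
  simp

lemma mu₀ : mu F l₀ l₁ v₀ y₀ = 0 := by
  unfold mu
  rw [h.crit, zero_div]

lemma N₀ : N F l₀ l₁ v₀ y₀ = 0 := by
  refine ContinuousLinearMap.ext fun v => ?_
  rw [N_apply, h.crit, h.mu₀, zero_mul, sub_zero]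
  rfl

/-- the space `C` -/
lemma exists_C : ∃ C : Submodule ℝ E, (∀ u ∈ C, fderiv ℝ F y₀ u = 0) ∧
    (∀ a b : ℝ, a • X r y₀ + b • X z y₀ ∈ C → a = 0 ∧ b = 0) ∧
    ∀ u, fderiv ℝ F y₀ u = 0 → ∃ c ∈ C, ∃ a b : ℝ, u = c + a • X r y₀ + b • X z y₀ := by
  set S : Submodule ℝ E := Submodule.span ℝ {X r y₀, X z y₀} with hS
  have hmS : ∀ u, u ∈ S ↔ ∃ a b : ℝ, a • X r y₀ + b • X z y₀ = u := fun u =>
    Submodule.mem_span_pair
  obtain ⟨C₀, hC₀⟩ := S.exists_isCompl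
  refine ⟨C₀ ⊓ LinearMap.ker (fderiv ℝ F y₀ : E →ₗ[ℝ] W), fun u hu => hu.2, ?_, ?_⟩
  · intro a b hab
    have h1 : a • X r y₀ + b • X z y₀ ∈ S ⊓ C₀ := ⟨(hmS _).2 ⟨a, b, rfl⟩, hab.1⟩
    rw [hC₀.inf_eq_bot, Submodule.mem_bot] at h1
    exact h.indep a b h1
  · intro u hu
    have h1 : u ∈ S ⊔ C₀ := by rw [hC₀.sup_eq_top]; trivial
    obtain ⟨s, hs, c, hc, rfl⟩ := Submodule.mem_sup.1 h1
    obtain ⟨a, b, rfl⟩ := (hmS s).1 hs
    refine ⟨c, ⟨hc, ?_⟩, a, b, by abel⟩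
    have h2 : fderiv ℝ F y₀ (a • X r y₀ + b • X z y₀) = 0 := by
      rw [map_add, map_smul, map_smul, h.ker r y₀ h.mem, h.ker z y₀ h.mem, smul_zero, smul_zero,
        add_zero]
    show fderiv ℝ F y₀ c = 0
    rw [map_add, h2, zero_add] at hu
    exact hu

/-- the Hessian on the fields -/
lemma hess_X (i : ι) (u : E) : l₀ (fderiv ℝ (fderiv ℝ F) y₀ u (X i y₀)) = 0 := by
  have h1 := h.ker' h.mem i u
  have h2 : fderiv ℝ (fderiv ℝ F) y₀ u (X i y₀) = - fderiv ℝ F y₀ (fderiv ℝ (X i) y₀ u) :=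
      eq_neg_of_add_eq_zero_left h1
  rw [h2, map_neg, h.crit, neg_zero]

end Pt

end Pool.Agent.H904.IN
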