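import Pool.Agent.H904.IN.Lift
import Pool.Agent.H904.IN.Cover2

/-! # The double cover of the singular set is a closed three-dimensional manifold -/

set_option autoImplicit false
set_option linter.unusedSectionVars false

open scoped Topology ContDiff Manifold
open Set Filter Bundle Pool.Agent.Helper186 Pool.Agent.H826R2 Pool.Agent.TH607

noncomputable section

namespace Pool.Agent.H904.IN

open Pool.Agent.N287.WF (DW)

universe u v w

variable {E : Type u} [NormedAddCommGroup E] [NormedSpace ℝ E] [FiniteDimensional ℝ E]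
  {M : Type v} [TopologicalSpace M] [ChartedSpace E M] [IsManifold 𝓘(ℝ, E) ∞ M]
  {W : Type w} [NormedAddCommGroup W] [InnerProductSpace ℝ W] [FiniteDimensional ℝ W]
  {β : (x : M) → TangentSpace 𝓘(ℝ, E) x →L[ℝ] ℝ}
  {R : (x : M) → TangentSpace 𝓘(ℝ, E) x} {f : M → W}

attribute [local instance] csProd

lemma closed_dir [T2Space M] (hf : ContMDiff 𝓘(ℝ, E) 𝓘(ℝ, W) ∞ f) :
    IsClosed {p : M × W | ∀ u : E, (DW f p.1 : E →L[ℝ] W) u =
      (inner ℝ p.2 ((DW f p.1 : E →L[ℝ] W) u) : ℝ) • p.2} := by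
  rw [← isOpen_compl_iff, isOpen_iff_mem_nhds]
  rintro ⟨x₀, a₀⟩ hp
  simp only [mem_compl_iff, mem_setOf_eq, not_forall] at hp
  obtain ⟨u₀, hu₀⟩ := hp
  obtain ⟨k, V, hk⟩ := exists_hat (E := E) x₀
  set F := FF (E := E) f x₀ with hF
  have hD0 : (DW f x₀ : E →L[ℝ] W) u₀ = fderiv ℝ F (chartAt E x₀ x₀) u₀ := by
    have h1 := hk.DW_eq hf hk.mem u₀
    rw [hk.at₀] at h1
    exact h1
  have hy₀ : chartAt E x₀ x₀ ∈ (chartAt E x₀).target :=
    (chartAt E x₀).map_source (mem_chart_source E x₀)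
  have hcc : ContinuousAt (fun p : M × W => chartAt E x₀ p.1) (x₀, a₀) :=
    ContinuousAt.comp (g := chartAt E x₀) (f := Prod.fst)
      ((chartAt E x₀).continuousAt (mem_chart_source E x₀)) continuousAt_fst
  have hc1 : ContinuousAt (fun y => fderiv ℝ F y u₀) (chartAt E x₀ x₀) := by
    have h1 : ContDiffOn ℝ ∞ (fun y => fderiv ℝ F y u₀) (chartAt E x₀).target :=
      ((smooth_FF hf x₀).fderiv_of_isOpen (chartAt E x₀).open_target (by simp)).clm_apply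
        contDiffOn_const
    exact (h1.contDiffAt ((chartAt E x₀).open_target.mem_nhds hy₀)).continuousAt
  have hc2 : ContinuousAt (fun p : M × W => fderiv ℝ F (chartAt E x₀ p.1) u₀) (x₀, a₀) :=
    ContinuousAt.comp (g := fun y => fderiv ℝ F y u₀) (f := fun p : M × W => chartAt E x₀ p.1)
      hc1 hcc
  have hc3 : ContinuousAt (fun p : M × W => fderiv ℝ F (chartAt E x₀ p.1) u₀ -
      (inner ℝ p.2 (fderiv ℝ F (chartAt E x₀ p.1) u₀) : ℝ) • p.2) (x₀, a₀) :=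
    hc2.sub ((continuousAt_snd.inner hc2).smul continuousAt_snd)
  have h1 : ∀ᶠ p in 𝓝 ((x₀, a₀) : M × W), fderiv ℝ F (chartAt E x₀ p.1) u₀ -
      (inner ℝ p.2 (fderiv ℝ F (chartAt E x₀ p.1) u₀) : ℝ) • p.2 ≠ 0 := by
    refine hc3.eventually (isOpen_compl_singleton.mem_nhds ?_)
    show fderiv ℝ F (chartAt E x₀ x₀) u₀ -
      (inner ℝ a₀ (fderiv ℝ F (chartAt E x₀ x₀) u₀) : ℝ) • a₀ ≠ 0
    rw [← hD0]
    exact sub_ne_zero.2 hu₀
  have h2 : ∀ᶠ p in 𝓝 ((x₀, a₀) : M × W), p.1 ∈ V :=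
      continuousAt_fst.preimage_mem_nhds (hk.opn.mem_nhds hk.mem)
  filter_upwards [h1, h2] with p hp1 hp2
  intro hcon
  have hcon' : ∀ u : E, (DW f p.1 : E →L[ℝ] W) u =
      (inner ℝ p.2 ((DW f p.1 : E →L[ℝ] W) u) : ℝ) • p.2 := hcon
  apply hp1
  obtain ⟨u, hu⟩ := (hk.bij hp2).2 u₀
  have h3 : (DW f p.1 : E →L[ℝ] W) u = fderiv ℝ F (chartAt E x₀ p.1) u₀ := by
    rw [← hu]
    exact hk.DW_eq hf hp2 u
  rw [← h3]
  exact sub_eq_zero.2 (hcon' u)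

lemma compact_PP [T2Space M] [CompactSpace M] (hf : ContMDiff 𝓘(ℝ, E) 𝓘(ℝ, W) ∞ f)
    {S : Set M} (hS : IsClosed S) : IsCompact (PP E f S) := by
  refine (isCompact_univ.prod (isCompact_sphere (0 : W) 1)).of_isClosed_subset ?_ ?_
  · have h1 : IsClosed {p : M × W | p.1 ∈ S} := hS.preimage continuous_fst
    have h2 : IsClosed {p : M × W | ‖p.2‖ = 1} :=
      isClosed_eq continuous_snd.norm continuous_const
    have h3 : PP E f S = {p : M × W | p.1 ∈ S} ∩ ({p : M × W | ‖p.2‖ = 1} ∩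
      {p : M × W | ∀ u : E, (DW f p.1 : E →L[ℝ] W) u =
        (inner ℝ p.2 ((DW f p.1 : E →L[ℝ] W) u) : ℝ) • p.2}) := rfl
    rw [h3]
    exact h1.inter (h2.inter (closed_dir hf))
  · rintro ⟨x, a⟩ ⟨-, ha, -⟩
    refine ⟨mem_univ _, ?_⟩
    rw [mem_sphere_zero_iff_norm]
    exact ha

lemma exists_dir {x : M} (hr : Rk E f x) (hne : ∃ v : TangentSpace 𝓘(ℝ, E) x, DW f x v ≠ 0) :
    ∃ a : W, Dir E f x a := by
  obtain ⟨b, hb⟩ := hr
  obtain ⟨v, hv⟩ := hne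
  have hb0 : b ≠ 0 := by
    intro h0
    obtain ⟨t, ht⟩ := hb v
    rw [h0, smul_zero] at ht
    exact hv ht
  have hn : ‖b‖ ≠ 0 := norm_ne_zero_iff.2 hb0
  refine ⟨‖b‖⁻¹ • b, ?_, fun u => ?_⟩
  · rw [norm_smul, norm_inv, norm_norm, inv_mul_cancel₀ hn]
  · obtain ⟨t, ht⟩ := hb u
    rw [ht, inner_smul_right, inner_smul_left, real_inner_self_eq_norm_sq, smul_smul]
    congr 1
    simp only [map_inv₀, conj_trivial]
    field_simp

/-- **The theorem in the working form** -/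
theorem main_aux [T2Space M] [CompactSpace M] (h : Com β R f) {S : Set M} (hSc : IsClosed S)
    (hSne : S.Nonempty) (hS : ∀ x ∈ S, ∀ᶠ y in 𝓝 x, y ∈ S ↔ Rk E f y)
    (hne : ∀ x ∈ S, ∃ v : TangentSpace 𝓘(ℝ, E) x, DW f x v ≠ 0)
    (hnd : ∀ x ∈ S, ∀ a, Dir E f x a → ∃ l₀ : W →L[ℝ] ℝ, Nd h x a l₀) :
    {w : W | ∃ T : ℝ, 0 < T ∧
      ¬ {O : Set M | (∃ c : ℝ → M, IsMIntegralCurve (I := 𝓘(ℝ, E)) c R ∧
        (∀ t, c (t + T) = c t) ∧ O = range c) ∧ O ⊆ S ∩ f ⁻¹' {w}}.Countable}.Infinite := by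
  choose l₀ hl₀ using fun p : PP E f S => hnd p.1.1 p.2.1 p.1.2 p.2.2
  have hg := fun p : PP E f S => exists_g h (hS p.1.1 p.2.1) p.2.2 (hne p.1.1 p.2.1) (hl₀ p)
  have hdimE' : Module.finrank ℝ (Fin 3 → ℝ) = 3 := by simp
  have hslice : ∀ p : PP E f S, Nonempty (SliceAt (E := E × W) (Fin 3 → ℝ) (PP E f S) (p : M × W)) := by
    intro p
    obtain ⟨m, g, U, g1, g2, g3, g4, g5, g6, -⟩ := hg p
    exact exists_sliceAt (X := M × W) (A := PP E f S) (a := p.1) g1 g2 g3 g4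
      (hdimE'.trans g5.symm) g6
  let Sl : Slices (E := E × W) (Fin 3 → ℝ) (PP E f S) := ⟨fun p => (hslice p).some⟩
  let _ := Sl.charted
  have := Sl.isManifold
  have hcomp : CompactSpace (PP E f S) := isCompact_iff_compactSpace.1 (compact_PP h.smooth hSc)
  have hnonempty : Nonempty (PP E f S) := by
    obtain ⟨x, hx⟩ := hSne
    obtain ⟨a, ha⟩ := exists_dir (((hS x hx).self_of_nhds).1 hx) (hne x hx)
    exact ⟨⟨(x, a), hx, ha⟩⟩
  let q : PP E f S → M := fun p => p.1.1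
  let a : PP E f S → W := fun p => p.1.2
  have hval := Sl.contMDiff_val
  have hq : ContMDiff 𝓘(ℝ, Fin 3 → ℝ) 𝓘(ℝ, E) ∞ q := contMDiff_fst'.comp hval
  have ha : ContMDiff 𝓘(ℝ, Fin 3 → ℝ) 𝓘(ℝ, W) ∞ a := contMDiff_snd'.comp hval
  have hDq : ∀ (p : PP E f S) (u : Fin 3 → ℝ), Dm E (Fin 3 → ℝ) q p u =
      (Dm (E × W) (Fin 3 → ℝ) (Subtype.val : PP E f S → M × W) p u).1 := by
    intro p u
    have h1 := HasMFDerivAt.comp p (g := (Prod.fst : M × W → M))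
      (f := (Subtype.val : PP E f S → M × W)) (hasMFDerivAt_fst' (E := E) (p : M × W))
      ((hval p).mdifferentiableAt (by simp)).hasMFDerivAt
    exact DFunLike.congr_fun h1.mfderiv u
  -- the tangent spaces
  have htan : ∀ p : PP E f S, (∀ u : Fin 3 → ℝ, Dm E (Fin 3 → ℝ) q p u = 0 → u = 0) ∧
      (∃ u : Fin 3 → ℝ, Dm E (Fin 3 → ℝ) q p u = vR R (q p)) ∧
      (∃ u : Fin 3 → ℝ, Dm E (Fin 3 → ℝ) q p u = h.vH (zi (a p)) (q p)) ∧
      (∃ u : Fin 3 → ℝ, (inner ℝ (a p) (Df E f (q p) (Dm E (Fin 3 → ℝ) q p u)) : ℝ) ≠ 0) ∧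
      (∀ u : Fin 3 → ℝ, Df E f (q p) (Dm E (Fin 3 → ℝ) q p u) = 0 →
        ∃ s t : ℝ, Dm E (Fin 3 → ℝ) q p u = s • vR R (q p) + t • h.vH (zi (a p)) (q p)) := by
    intro p
    obtain ⟨m, g, U, g1, g2, g3, g4, g5, g6, g7, ⟨w₁, hw₁⟩, ⟨w₂, hw₂⟩, ⟨Y, w₃, hY1, hY2⟩, g8⟩ := hg p
    have hgd : DifferentiableAt ℝ g (chartAt (E × W) (p : M × W) (p : M × W)) :=
      (g2.contDiffAt (g1.mem_nhds g3)).differentiableAt (by simp)
    obtain ⟨t1, t2⟩ := exists_tangent (X := M × W) (A := PP E f S) Sl (a := p) (g := g) hgd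
      (hdimE'.trans g5.symm) (g6.mono fun x hx => hx.1)
    have t1' : ∀ u : Fin 3 → ℝ, fderiv ℝ g (chartAt E p.1.1 p.1.1, p.1.2)
        (Dm (E × W) (Fin 3 → ℝ) (Subtype.val : PP E f S → M × W) p u) = 0 := t1
    have t2' : ∀ v : E × W, fderiv ℝ g (chartAt E p.1.1 p.1.1, p.1.2) v = 0 →
      ∃ u : Fin 3 → ℝ, Dm (E × W) (Fin 3 → ℝ) (Subtype.val : PP E f S → M × W) p u = v := t2
    refine ⟨?_, ?_, ?_, ?_, ?_⟩
    · intro u hu
      rw [hDq] at hu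
      set z := Dm (E × W) (Fin 3 → ℝ) (Subtype.val : PP E f S → M × W) p u with hz
      have h1 := g7 z.1 z.2 (t1' u) hu
      have h2 : z = 0 := Prod.ext hu h1
      have hinj : Function.Injective (Dm (E × W) (Fin 3 → ℝ)
        (Subtype.val : PP E f S → M × W) p) := Sl.injective_mfderiv_val p
      apply hinj
      rw [map_zero, ← h2]
    · obtain ⟨u, hu⟩ := t2' _ hw₁
      exact ⟨u, by rw [hDq, hu]; rfl⟩
    · obtain ⟨u, hu⟩ := t2' _ hw₂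
      exact ⟨u, by rw [hDq, hu]; rfl⟩
    · obtain ⟨u, hu⟩ := t2' _ hY1
      refine ⟨u, ?_⟩
      rw [hDq, hu]
      exact hY2
    · intro u hu
      rw [hDq] at hu ⊢
      exact g8 _ _ (t1' u) hu
  have hd : CovData h q a := ⟨hq, ha, fun p => (htan p).1, fun p => (htan p).2.1,
    fun p => (htan p).2.2.1, fun p => (htan p).2.2.2.1, fun p => (htan p).2.2.2.2,
    fun p => p.2.2⟩
  obtain ⟨RP, Z, hF⟩ := hd.exists_fam
  refine (SF.main hF).mono ?_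
  rintro w ⟨T, hT, h1⟩
  refine ⟨T, hT, fun h2 => h1 (h2.mono ?_)⟩
  rintro O ⟨hO1, hO2⟩
  refine ⟨hO1, hO2.trans ?_⟩
  rintro _ ⟨p, hp, rfl⟩
  exact ⟨p.2.1, hp⟩

end Pool.Agent.H904.IN
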